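import Pool.Agent.Helper99.GL.F22a

set_option autoImplicit false

open Metric Set Filter Topology

namespace Pool.GL.Helper99

theorem fin_min (n : ℕ) (f : ℕ → ℝ) (hf : ∀ j < n, 0 < f j) : ∃ m > 0, ∀ j < n, m ≤ f j := by
  induction n with
  | zero => exact ⟨1, one_pos, fun j hj => absurd hj (Nat.not_lt_zero j)⟩
  | succ n ih =>
    obtain ⟨m, hm, h⟩ := ih (fun j hj => hf j (Nat.lt_succ_of_lt hj))
    refine ⟨min m (f n), lt_min hm (hf n (Nat.lt_succ_self n)), fun j hj => ?_⟩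
    rcases Nat.lt_succ_iff_lt_or_eq.mp hj with h1 | h1
    · exact (min_le_left _ _).trans (h j h1)
    · rw [h1]; exact min_le_right _ _

theorem fin_max (n : ℕ) (f : ℕ → ℝ) : ∃ m : ℝ, ∀ j < n, f j ≤ m := by
  induction n with
  | zero => exact ⟨1, fun j hj => absurd hj (Nat.not_lt_zero j)⟩
  | succ n ih =>
    obtain ⟨m, h⟩ := ih
    refine ⟨max m (f n), fun j hj => ?_⟩
    rcases Nat.lt_succ_iff_lt_or_eq.mp hj with h1 | h1
    · exact (h j h1).trans (le_max_left _ _)
    · rw [h1]; exact le_max_right _ _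

theorem B_zero (I : Inf) (s : ℂ) : I.B s 0 = (I.b 0).eval s := by
  unfold Inf.B
  rw [Finset.sum_eq_single 0]
  · simp
  · intro m _ hm
    simp [hm]
  · intro h
    exact absurd (Finset.mem_range.mpr (Nat.succ_pos _)) h

theorem loc_B {I : Inf} {a : ℂ} {η δ : ℝ} {ζ : ℂ → ℂ → ℂ} (h : I.Loc a η δ ζ) {z : ℂ}
    (hz : ‖z‖ < δ) : I.B a z ≠ 0 := by
  have := (h.sol z hz a (mem_ball_self h.η_pos)).1
  simp only [h.init z hz] at this
  exact this

theorem B_cont (I : Inf) (s : ℂ) : Continuous (fun z => I.B s z) := by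
  unfold Inf.B
  fun_prop

theorem small_time {I : Inf} (hd : 2 ≤ I.d) {a : ℂ} {η δ : ℝ} {ζ : ℂ → ℂ → ℂ}
    (h : I.Loc a η δ ζ) :
    ∃ ε > 0, ∀ z : ℂ, ‖z‖ < ε → ‖z‖ ^ (I.d - 1) / ‖I.B a z‖ * η / 2 ≤ 1 := by
  have hB0 : I.B a 0 ≠ 0 := loc_B h (by simpa using h.δ_pos)
  have hc : ContinuousAt (fun z : ℂ => ‖z‖ ^ (I.d - 1) / ‖I.B a z‖ * η / 2) 0 := by
    have h1 : ContinuousAt (fun z : ℂ => I.B a z) 0 := (B_cont I a).continuousAt
    have h2 : ContinuousAt (fun z : ℂ => ‖z‖ ^ (I.d - 1)) 0 := by fun_prop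
    have h3 : ContinuousAt (fun z : ℂ => ‖z‖ ^ (I.d - 1) / ‖I.B a z‖) 0 :=
      h2.div h1.norm (by simpa using hB0)
    exact (h3.mul continuousAt_const).div_const _
  have h0 : (fun z : ℂ => ‖z‖ ^ (I.d - 1) / ‖I.B a z‖ * η / 2) 0 = 0 := by
    have : I.d - 1 ≠ 0 := by omega
    simp [this]
  have h1 : ∀ᶠ z in 𝓝 (0 : ℂ), ‖z‖ ^ (I.d - 1) / ‖I.B a z‖ * η / 2 < 1 := by
    apply hc.eventually_lt_const
    rw [h0]; exact one_pos
  obtain ⟨ε, hε, h2⟩ := Metric.eventually_nhds_iff.mp h1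
  exact ⟨ε, hε, fun z hz => (h2 (by simpa using hz)).le⟩

theorem aff_inj {s s' z z' : ℂ} (hz : z ≠ 0) (h : aff s z = aff s' z') : s = s' ∧ z = z' := by
  unfold aff at h
  rw [Prod.mk.injEq] at h
  obtain ⟨h1, h2⟩ := h
  have hzz : z = z' := by
    have := congrArg (fun t => t⁻¹) h1
    simpa using this
  subst hzz
  refine ⟨?_, rfl⟩
  field_simp at h2
  exact h2

theorem TREE (hTWO : S_TWO) (hDIST : S_DIST) (hGEO : S_GEO) (hU : S_SOLUNI) : S_TREE := by
  classical
  intro F hF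
  obtain ⟨s₀, n, G, ρ, hGH, hGd, hρ, hρ0, hGne⟩ := hTWO F hF
  have hch : ∀ i, ∃ c : Ch F.inf n s₀ s₀, ∀ᶠ z in 𝓝 (0 : ℂ), G i z = it c.v c.ζ n z :=
    fun i => hol_unfold _ _ _ _ _ (hGH i)
  choose C hC using hch
  -- n is positive
  have hn : 0 < n := by
    rcases Nat.eq_zero_or_pos n with h | h
    · exfalso
      subst h
      have h1 : G true =ᶠ[𝓝 (0 : ℂ)] fun z => z := hC true
      have h2 : deriv (G true) 0 = 1 := by
        rw [h1.deriv_eq]; simp
      rw [hGd true] at h2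
      rw [h2] at hρ
      norm_num at hρ
    · exact h
  have hG0 : ∀ i, G i 0 = 0 := by
    intro i
    have h1 := (hC i).self_of_nhds
    rw [h1]
    have : ∀ j ≤ n, it (C i).v (C i).ζ j 0 = 0 := by
      intro j
      induction j with
      | zero => intro _; rfl
      | succ j ih =>
        intro hj
        show (C i).ζ j ((C i).v (j + 1)) (it (C i).v (C i).ζ j 0) = 0
        rw [ih (Nat.le_of_succ_le hj)]
        have hl := (C i).loc j hj
        apply hl.zero
        exact ball_subset_ball (by have := hl.η_pos; linarith) (it_mem (C i) j hj)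
    exact this n le_rfl
  have hGan : ∀ i, AnalyticAt ℂ (G i) 0 := by
    intro i
    have : ∀ j ≤ n, AnalyticAt ℂ (it (C i).v (C i).ζ j) 0 ∧ it (C i).v (C i).ζ j 0 = 0 := by
      intro j
      induction j with
      | zero => intro _; exact ⟨analyticAt_id, rfl⟩
      | succ j ih =>
        intro hj
        obtain ⟨h1, h2⟩ := ih (Nat.le_of_succ_le hj)
        have hl := (C i).loc j hj
        have hm : (C i).v (j + 1) ∈ ball ((C i).v j) ((C i).η j) :=
          ball_subset_ball (by have := hl.η_pos; linarith) (it_mem (C i) j hj)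
        have h3 : AnalyticAt ℂ (fun z => (C i).ζ j ((C i).v (j + 1)) z) 0 :=
          (hl.diffz _ hm).analyticAt (ball_mem_nhds _ hl.δ_pos)
        refine ⟨?_, ?_⟩
        · have h4 : AnalyticAt ℂ (fun z => (C i).ζ j ((C i).v (j + 1)) z)
              (it (C i).v (C i).ζ j 0) := by rw [h2]; exact h3
          exact h4.comp h1
        · show (C i).ζ j ((C i).v (j + 1)) (it (C i).v (C i).ζ j 0) = 0
          rw [h2]; exact hl.zero _ hm
    exact (this n le_rfl).1.congr (by filter_upwards [hC i] with z hz; exact hz.symm)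
  obtain ⟨δD, hδD, hD⟩ := hDIST G ρ hGan hG0 hGd hρ0 hρ hGne
  -- radii
  have hηpos : ∀ i, ∀ j < n, 0 < (C i).η j := fun i j hj => ((C i).loc j hj).η_pos
  obtain ⟨m₁, hm₁, hm₁'⟩ := fin_min n (C true).η (hηpos true)
  obtain ⟨m₂, hm₂, hm₂'⟩ := fin_min n (C false).η (hηpos false)
  obtain ⟨M₁, hM₁⟩ := fin_max n (C true).η
  obtain ⟨M₂, hM₂⟩ := fin_max n (C false).η
  set ηs : ℝ := min m₁ m₂ with hηs
  have hηs0 : 0 < ηs := lt_min hm₁ hm₂
  have hηs1 : ∀ i, ∀ j < n, ηs ≤ (C i).η j := by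
    intro i j hj
    cases i with
    | true => exact (min_le_left _ _).trans (hm₁' j hj)
    | false => exact (min_le_right _ _).trans (hm₂' j hj)
  obtain ⟨N₀, hN₀⟩ := exists_nat_ge (max M₁ M₂ / ηs)
  set N : ℕ := N₀ + 1 with hN
  have hNpos : 0 < N := Nat.succ_pos _
  have hNR : (0 : ℝ) < N := by exact_mod_cast hNpos
  have hηN : ∀ i, ∀ j < n, (C i).η j ≤ N * ηs := by
    intro i j hj
    have h1 : (C i).η j ≤ max M₁ M₂ := by
      cases i with
      | true => exact (hM₁ j hj).trans (le_max_left _ _)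
      | false => exact (hM₂ j hj).trans (le_max_right _ _)
    have h2 : max M₁ M₂ ≤ N₀ * ηs := by
      rwa [div_le_iff₀ hηs0] at hN₀
    have h3 : (N : ℝ) = N₀ + 1 := by rw [hN]; push_cast; ring
    rw [h3]
    nlinarith
  -- small ε
  have hsm : ∀ i, ∀ j, ∃ e > 0, j < n → (2 ^ j * e ≤ (C i).δ j ∧ ∀ z : ℂ, ‖z‖ < 2 ^ j * e →
      ‖z‖ ^ (F.inf.d - 1) / ‖F.inf.B ((C i).v j) z‖ * (C i).η j / 2 ≤ 1) := by
    intro i j
    by_cases hj : j < n
    · obtain ⟨e, he, h⟩ := small_time hF.hd ((C i).loc j hj)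
      have hδ := ((C i).loc j hj).δ_pos
      have h2 : (0 : ℝ) < 2 ^ j := by positivity
      refine ⟨min e ((C i).δ j) / 2 ^ j, by positivity, fun _ => ?_⟩
      have h3 : 2 ^ j * (min e ((C i).δ j) / 2 ^ j) = min e ((C i).δ j) := by field_simp
      rw [h3]
      exact ⟨min_le_right _ _, fun z hz => h z (lt_of_lt_of_le hz (min_le_left _ _))⟩
    · exact ⟨1, one_pos, fun h => absurd h hj⟩
  choose e he he' using hsm
  obtain ⟨e₁, he₁, he₁'⟩ := fin_min n (e true) (fun j _ => he true j)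
  obtain ⟨e₂, he₂, he₂'⟩ := fin_min n (e false) (fun j _ => he false j)
  obtain ⟨g₁, hg₁, hg₁'⟩ := Metric.eventually_nhds_iff.mp (hC true)
  obtain ⟨g₂, hg₂, hg₂'⟩ := Metric.eventually_nhds_iff.mp (hC false)
  set ε : ℝ := min (min (min e₁ e₂) (min g₁ g₂)) δD with hεdef
  have hε0 : 0 < ε := lt_min (lt_min (lt_min he₁ he₂) (lt_min hg₁ hg₂)) hδD
  have hεe : ∀ i, ∀ j < n, ε ≤ e i j := by
    intro i j hj
    have h1 : ε ≤ min e₁ e₂ := (min_le_left _ _).trans (min_le_left _ _)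
    cases i with
    | true => exact (h1.trans (min_le_left _ _)).trans (he₁' j hj)
    | false => exact (h1.trans (min_le_right _ _)).trans (he₂' j hj)
  have hεδ : ∀ i, ∀ j < n, 2 ^ j * ε ≤ (C i).δ j := by
    intro i j hj
    have h1 := (he' i j hj).1
    have h2 : (0 : ℝ) < 2 ^ j := by positivity
    have h3 := hεe i j hj
    nlinarith
  have hεG : ∀ i, ∀ z : ℂ, ‖z‖ < ε → G i z = it (C i).v (C i).ζ n z := by
    intro i z hz
    have h1 : ε ≤ min g₁ g₂ := (min_le_left _ _).trans (min_le_right _ _)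
    cases i with
    | true => exact hg₁' (by simpa using lt_of_lt_of_le hz (h1.trans (min_le_left _ _)))
    | false => exact hg₂' (by simpa using lt_of_lt_of_le hz (h1.trans (min_le_right _ _)))
  have hs₀ : s₀ ∈ F.inf.Om := by
    have hl := (C true).loc 0 hn
    have h1 := loc_B hl (z := 0) (by simpa using hl.δ_pos)
    rw [B_zero, (C true).h0] at h1
    exact h1
  refine ⟨s₀, hs₀, ε, hε0, ?_⟩
  intro p hp T hT z₀ hz0 hz1 hL
  -- words
  set x : List Bool → ℂ := fun w => wordMap G w z₀ with hx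
  have hz1' : ‖z₀‖ < δD := lt_of_lt_of_le hz1 (min_le_right _ _)
  obtain ⟨hD1, hD2⟩ := hD z₀ hz0 hz1'
  have hx0 : ∀ w, x w ≠ 0 := fun w => (hD1 w).1
  have hxle : ∀ w : List Bool, ‖x w‖ ≤ (1 / 2) ^ w.length * ‖z₀‖ := fun w => (hD1 w).2
  have hxlt : ∀ w, ‖x w‖ < ε := by
    intro w
    refine lt_of_le_of_lt (hxle w) (lt_of_le_of_lt ?_ hz1)
    have : ((1 : ℝ) / 2) ^ w.length ≤ 1 := pow_le_one₀ (by norm_num) (by norm_num)
    nlinarith
  have hxcons : ∀ i w, x (i :: w) = it (C i).v (C i).ζ n (x w) := by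
    intro i w
    show G i (wordMap G w z₀) = _
    exact hεG i _ (hxlt w)
  set Z : List Bool → Bool → ℕ → ℂ := fun w i j => it (C i).v (C i).ζ j (x w) with hZ
  have hZn : ∀ w i, Z w i n = x (i :: w) := fun w i => (hxcons i w).symm
  have hZ0 : ∀ w i, Z w i 0 = x w := fun w i => rfl
  have hZne : ∀ w i, ∀ j ≤ n, Z w i j ≠ 0 := fun w i j hj =>
    (it_size (C i) ε (hεδ i) (x w) (hxlt w) j hj).2.1 (hx0 w)
  have hZδ : ∀ w i, ∀ j < n, ‖Z w i j‖ < (C i).δ j := fun w i j hj =>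
    (it_size (C i) ε (hεδ i) (x w) (hxlt w) j hj.le).2.2 hj
  have hZlt : ∀ w i, ∀ j < n, ‖Z w i j‖ < 2 ^ j * e i j := by
    intro w i j hj
    have h1 := (it_size (C i) ε (hεδ i) (x w) (hxlt w) j hj.le).1
    have h2 : (0 : ℝ) < 2 ^ j := by positivity
    calc ‖Z w i j‖ ≤ 2 ^ j * ‖x w‖ := h1
      _ < 2 ^ j * ε := mul_lt_mul_of_pos_left (hxlt w) h2
      _ ≤ 2 ^ j * e i j := mul_le_mul_of_nonneg_left (hεe i j hj) h2.le
  set τ : List Bool → Bool → ℕ → ℝ := fun w i j =>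
    ‖Z w i j‖ ^ (F.d - 1) / ‖F.inf.B ((C i).v j) (Z w i j)‖ with hτ
  have hτle : ∀ w i, ∀ j < n, τ w i j * (C i).η j / 2 ≤ 1 := fun w i j hj =>
    (he' i j hj).2 _ (hZlt w i j hj)
  have hτpos' : ∀ w i, ∀ j < n, 0 < τ w i j := by
    intro w i j hj
    have h1 := loc_B ((C i).loc j hj) (hZδ w i j hj)
    have h2 := hZne w i j hj.le
    have h3 : 0 < ‖Z w i j‖ := norm_pos_iff.mpr h2
    have h4 : 0 < ‖F.inf.B ((C i).v j) (Z w i j)‖ := norm_pos_iff.mpr h1
    show 0 < ‖Z w i j‖ ^ (F.d - 1) / ‖F.inf.B ((C i).v j) (Z w i j)‖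
    positivity
  have hτn : ∀ w i, τ w i n = τ (i :: w) false 0 := by
    intro w i
    show ‖Z w i n‖ ^ (F.d - 1) / ‖F.inf.B ((C i).v n) (Z w i n)‖ =
      ‖Z (i :: w) false 0‖ ^ (F.d - 1) / ‖F.inf.B ((C false).v 0) (Z (i :: w) false 0)‖
    rw [hZn, hZ0, (C i).hn, (C false).h0]
  have hτ0 : ∀ w, τ w true 0 = τ w false 0 := by
    intro w
    show ‖Z w true 0‖ ^ (F.d - 1) / ‖F.inf.B ((C true).v 0) (Z w true 0)‖ =
      ‖Z w false 0‖ ^ (F.d - 1) / ‖F.inf.B ((C false).v 0) (Z w false 0)‖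
    rw [hZ0, hZ0, (C true).h0, (C false).h0]
  have hτpos : ∀ w i, ∀ j ≤ n, 0 < τ w i j := by
    intro w i j hj
    rcases lt_or_eq_of_le hj with h | h
    · exact hτpos' w i j h
    · rw [h, hτn]; exact hτpos' _ _ _ hn
  -- points of the leaf
  have hstep : ∀ w i, ∀ j < n, ∀ m : {q : ℂ × ℂ // F.Lf p q},
      (m : ℂ × ℂ) = aff ((C i).v j) (Z w i j) →
      τ w i j * (C i).η j / 2 ≤ T.rho m ∧
      (∀ t : ℂ, ‖t‖ < τ w i j * (C i).η j / 2 → ∃ s ∈ ball ((C i).v j) ((C i).η j),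
        ((T.Phi m t : {q : ℂ × ℂ // F.Lf p q}) : ℂ × ℂ) = aff s ((C i).ζ j s (Z w i j))) ∧
      ∃ t : ℂ, ‖t‖ ≤ τ w i j * (C i).η j / 64 ∧
        ((T.Phi m t : {q : ℂ × ℂ // F.Lf p q}) : ℂ × ℂ) =
          aff ((C i).v (j + 1)) (Z w i (j + 1)) := by
    intro w i j hj m hm
    obtain ⟨h1, h2, h3⟩ := hGEO F hF.hd hF.degP hF.degQ p T hT _ _ _ _ ((C i).loc j hj) (Z w i j)
      (norm_pos_iff.mpr (hZne w i j hj.le)) (hZδ w i j hj) m hm (τ w i j) rfl (hτle w i j hj)
    exact ⟨h1, h2, h3 _ (it_mem (C i) j hj)⟩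
  have hLfj : ∀ w, F.Lf p (aff s₀ (x w)) → ∀ i, ∀ j ≤ n, F.Lf p (aff ((C i).v j) (Z w i j)) := by
    intro w hw i j
    induction j with
    | zero => intro _; rw [(C i).h0, hZ0]; exact hw
    | succ j ih =>
      intro hj
      have h1 := ih (Nat.le_of_succ_le hj)
      obtain ⟨-, -, t, -, ht⟩ := hstep w i j hj ⟨_, h1⟩ rfl
      rw [← ht]
      exact (T.Phi ⟨_, h1⟩ t).2
  have hLfx : ∀ w, F.Lf p (aff s₀ (x w)) := by
    intro w
    induction w with
    | nil => exact hL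
    | cons i w ih =>
      have h1 := hLfj w ih i n le_rfl
      rw [(C i).hn, hZn] at h1
      exact h1
  have hLf : ∀ w i, ∀ j ≤ n, F.Lf p (aff ((C i).v j) (Z w i j)) := fun w => hLfj w (hLfx w)
  set mk : ℂ × ℂ → {q : ℂ × ℂ // F.Lf p q} := fun q =>
    if h : F.Lf p q then ⟨q, h⟩ else ⟨p, Relation.ReflTransGen.refl⟩ with hmk
  have hmk1 : ∀ q, F.Lf p q → ((mk q : {q : ℂ × ℂ // F.Lf p q}) : ℂ × ℂ) = q := by
    intro q hq
    simp only [hmk, hq, dif_pos]
  set pt : List Bool → Bool → ℕ → {q : ℂ × ℂ // F.Lf p q} := fun w i j =>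
    mk (aff ((C i).v j) (Z w i j)) with hpt
  have hpt1 : ∀ w i, ∀ j ≤ n, ((pt w i j : {q : ℂ × ℂ // F.Lf p q}) : ℂ × ℂ) =
      aff ((C i).v j) (Z w i j) := fun w i j hj => hmk1 _ (hLf w i j hj)
  have hptn : ∀ w i, pt w i n = pt (i :: w) false 0 := by
    intro w i
    show mk (aff ((C i).v n) (Z w i n)) = mk (aff ((C false).v 0) (Z (i :: w) false 0))
    rw [hZn, hZ0, (C i).hn, (C false).h0]
  have hpt0 : ∀ w, pt w true 0 = pt w false 0 := by
    intro w
    show mk (aff ((C true).v 0) (Z w true 0)) = mk (aff ((C false).v 0) (Z w false 0))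
    rw [hZ0, hZ0, (C true).h0, (C false).h0]
  have htt : ∀ w i j, ∃ t : ℂ, (j < n → ‖t‖ ≤ τ w i j * (C i).η j / 64 ∧
      T.Phi (pt w i j) t = pt w i (j + 1)) ∧ (¬ j < n → t = 0) := by
    intro w i j
    by_cases hj : j < n
    · obtain ⟨-, -, t, ht1, ht2⟩ := hstep w i j hj (pt w i j) (hpt1 w i j hj.le)
      refine ⟨t, fun _ => ⟨ht1, ?_⟩, fun h => absurd hj h⟩
      apply Subtype.ext
      rw [ht2, hpt1 w i (j + 1) hj]
    · exact ⟨0, fun h => absurd h hj, fun _ => rfl⟩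
  choose tt htt1 htt2 using htt
  -- lower bound for rho, location of small discs
  have hrho : ∀ w i, ∀ j ≤ n, τ w i j * ηs / 2 ≤ T.rho (pt w i j) := by
    intro w i j hj
    rcases lt_or_eq_of_le hj with h | h
    · have h1 := (hstep w i j h (pt w i j) (hpt1 w i j hj)).1
      have h2 := hηs1 i j h
      have h3 := hτpos w i j hj
      have h4 : τ w i j * ηs ≤ τ w i j * (C i).η j := mul_le_mul_of_nonneg_left h2 h3.le
      linarith
    · rw [h, hτn, hptn]
      have h1 := (hstep (i :: w) false 0 hn (pt (i :: w) false 0) (hpt1 _ _ _ hn.le)).1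
      have h2 := hηs1 false 0 hn
      have h3 := hτpos (i :: w) false 0 hn.le
      have h4 : τ (i :: w) false 0 * ηs ≤ τ (i :: w) false 0 * (C false).η 0 :=
        mul_le_mul_of_nonneg_left h2 h3.le
      linarith
  have htn : ∀ w i, ∀ j ≤ n, ∀ k : ℝ, 0 ≤ k → k ≤ 1 → ∀ t : ℂ, ‖t‖ = k * ‖tt w i j‖ →
      2 * (τ w i j * ηs / 16) ≤ T.rho (T.Phi (pt w i j) t) ∧ ‖t‖ < T.rho (pt w i j) ∧
      (∀ t' : ℂ, ‖t'‖ < 2 * (τ w i j * ηs / 16) → ‖t‖ + ‖t'‖ < T.rho (pt w i j)) ∧
      (∀ t' : ℂ, ‖t'‖ < 2 * (τ w i j * ηs / 16) → j < n →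
        ‖t + t'‖ < τ w i j * (C i).η j / 2) := by
    intro w i j hj k hk0 hk1 t ht
    have hτp := hτpos w i j hj
    have hτη : 0 < τ w i j * ηs := mul_pos hτp hηs0
    rcases lt_or_eq_of_le hj with h | h
    · have h1 := (hstep w i j h (pt w i j) (hpt1 w i j hj)).1
      have h2 := hηs1 i j h
      have h4 : τ w i j * ηs ≤ τ w i j * (C i).η j := mul_le_mul_of_nonneg_left h2 hτp.le
      have h5 := (htt1 w i j h).1
      have h6 : ‖t‖ ≤ τ w i j * (C i).η j / 64 := by
        rw [ht]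
        have : k * ‖tt w i j‖ ≤ 1 * ‖tt w i j‖ :=
          mul_le_mul_of_nonneg_right hk1 (norm_nonneg _)
        linarith
      have h7 : ‖t‖ < T.rho (pt w i j) := by linarith
      have h8 := T.rho_lip (pt w i j) t h7
      refine ⟨by linarith, h7, fun t' ht' => by linarith, fun t' ht' _ => ?_⟩
      have := norm_add_le t t'
      linarith
    · have h5 : tt w i j = 0 := htt2 w i j (by omega)
      have h6 : ‖t‖ = 0 := by rw [ht, h5]; simp
      have h1 := hrho w i j hj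
      have h7 : ‖t‖ < T.rho (pt w i j) := by rw [h6]; exact T.rho_pos _
      have h8 := T.rho_lip (pt w i j) t h7
      refine ⟨by rw [h6] at h8; linarith, h7, fun t' ht' => by rw [h6]; linarith, fun t' ht' h' => ?_⟩
      omega
  -- the tree
  set y : List Bool → Bool → ℕ → {q : ℂ × ℂ // F.Lf p q} := fun w i q =>
    T.Phi (pt w i (min (q / N) n)) (((q % N : ℕ) : ℂ) / (N : ℂ) * tt w i (min (q / N) n)) with hy
  set r : List Bool → Bool → ℕ → ℝ := fun w i q => τ w i (min (q / N) n) * ηs / 16 with hr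
  have hkN : ∀ w i q, ‖((q % N : ℕ) : ℂ) / (N : ℂ) * tt w i (min (q / N) n)‖ =
      (((q % N : ℕ) : ℝ) / (N : ℝ)) * ‖tt w i (min (q / N) n)‖ := by
    intro w i q
    rw [norm_mul, norm_div]
    simp
  have hk0 : ∀ q : ℕ, (0 : ℝ) ≤ ((q % N : ℕ) : ℝ) / (N : ℝ) := fun q => by positivity
  have hk1 : ∀ q : ℕ, ((q % N : ℕ) : ℝ) / (N : ℝ) ≤ 1 := by
    intro q
    rw [div_le_one hNR]
    exact_mod_cast (Nat.mod_lt q hNpos).le
  have hyd : ∀ w i q, ∀ m ∈ T.disc (y w i q) (2 * r w i q), min (q / N) n < n →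
      ∃ s ∈ ball ((C i).v (min (q / N) n)) ((C i).η (min (q / N) n)),
        ((m : {q : ℂ × ℂ // F.Lf p q}) : ℂ × ℂ) =
          aff s ((C i).ζ (min (q / N) n) s (Z w i (min (q / N) n))) := by
    rintro w i q m ⟨t', ht', rfl⟩ hjn
    have ht'2 : ‖t'‖ < 2 * (τ w i (min (q / N) n) * ηs / 16) := by
      simpa [hr] using ht'
    obtain ⟨-, -, h3, h4⟩ := htn w i (min (q / N) n) (min_le_right _ _) _ (hk0 q) (hk1 q)
      _ (hkN w i q)
    have h5 := T.Phi_add (pt w i (min (q / N) n)) _ t' (h3 t' ht'2)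
    show ∃ s ∈ _, ((T.Phi (T.Phi _ _) t' : {q : ℂ × ℂ // F.Lf p q}) : ℂ × ℂ) = _
    rw [h5]
    exact (hstep w i _ hjn (pt w i _) (hpt1 w i _ hjn.le)).2.1 _ (h4 t' ht'2 hjn)
  -- value when `q / N ≥ n`
  have hyn : ∀ w i q, min (q / N) n = n → y w i q = pt (i :: w) false 0 ∧
      r w i q = τ (i :: w) false 0 * ηs / 16 := by
    intro w i q h
    have h1 : y w i q = T.Phi (pt w i n) (((q % N : ℕ) : ℂ) / (N : ℂ) * tt w i n) := by
      show T.Phi (pt w i (min (q / N) n)) _ = _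
      rw [h]
    constructor
    · rw [h1, htt2 w i n (lt_irrefl n), mul_zero, T.Phi_zero, hptn]
    · show τ w i (min (q / N) n) * ηs / 16 = _
      rw [h, hτn]
  have hy0 : ∀ w i, y w i 0 = pt w i 0 ∧ r w i 0 = τ w i 0 * ηs / 16 := by
    intro w i
    have h0 : min (0 / N) n = 0 := by simp
    constructor
    · show T.Phi (pt w i (min (0 / N) n)) (((0 % N : ℕ) : ℂ) / (N : ℂ) * tt w i (min (0 / N) n)) = _
      rw [h0]
      simp [T.Phi_zero]
    · show τ w i (min (0 / N) n) * ηs / 16 = _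
      rw [h0]
  -- points over the disc of a vertex
  have hvert : ∀ w, ∀ m ∈ T.disc (pt w false 0) (2 * (τ w false 0 * ηs / 16)),
      ∃ s ∈ ball ((C false).v 0) ((C false).η 0),
        ((m : {q : ℂ × ℂ // F.Lf p q}) : ℂ × ℂ) = aff s ((C false).ζ 0 s (x w)) := by
    rintro w m ⟨t', ht', rfl⟩
    have ht'2 : ‖t'‖ < 2 * (τ w false 0 * ηs / 16) := by simpa using ht'
    refine (hstep w false 0 hn (pt w false 0) (hpt1 w false 0 hn.le)).2.1 _ ?_
    have h3 := hτpos w false 0 hn.le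
    have h4 : τ w false 0 * ηs ≤ τ w false 0 * (C false).η 0 :=
      mul_le_mul_of_nonneg_left (hηs1 false 0 hn) h3.le
    have h5 : 0 < τ w false 0 * ηs := mul_pos h3 hηs0
    linarith
  -- uniqueness: plaques with a common point
  have hplaque : ∀ i, ∀ j < n, ∀ z z' : ℂ, ‖z‖ < (C i).δ j → ‖z'‖ < (C i).δ j → z ≠ 0 →
      ∀ s ∈ ball ((C i).v j) ((C i).η j), ∀ s' ∈ ball ((C i).v j) ((C i).η j),
      aff s ((C i).ζ j s z) = aff s' ((C i).ζ j s' z') → z = z' := by
    intro i j hj z z' hz hz' hz0 s hs s' hs' h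
    have hl := (C i).loc j hj
    have hne : (C i).ζ j s z ≠ 0 := by
      intro h0
      have h1 := (hl.size s hs z hz).1
      rw [h0, norm_zero] at h1
      have h2 : 0 < ‖z‖ := norm_pos_iff.mpr hz0
      linarith
    obtain ⟨h1, h2⟩ := aff_inj hne h
    subst h1
    have h3 := hU F.inf (ball ((C i).v j) ((C i).η j)) isOpen_ball (convex_ball _ _).isPreconnected
      _ _ (hl.sol z hz) (hl.sol z' hz') s hs h2 ((C i).v j) (mem_ball_self hl.η_pos)
    simpa [hl.init z hz, hl.init z' hz'] using h3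
  have hdiv : ∀ q : ℕ, q < n * N → q / N < n := fun q hq => (Nat.div_lt_iff_lt_mul hNpos).mpr hq
  refine ⟨{
    n0 := n * N
    y := y
    r := r
    start := ?_
    finish := ?_
    r_pos := ?_
    r_le := ?_
    step := ?_
    ratio := ?_
    disj := ?_
    escape := ?_ }⟩
  · intro w
    exact ⟨by rw [(hy0 w true).1, (hy0 w false).1, hpt0], by
      rw [(hy0 w true).2, (hy0 w false).2, hτ0]⟩
  · intro w i
    have h1 : min (n * N / N) n = n := by rw [Nat.mul_div_cancel _ hNpos]; simp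
    obtain ⟨h2, h3⟩ := hyn w i (n * N) h1
    exact ⟨by rw [h2, (hy0 (i :: w) false).1], by rw [h3, (hy0 (i :: w) false).2]⟩
  · intro w i q
    have := hτpos w i (min (q / N) n) (min_le_right _ _)
    show 0 < τ w i (min (q / N) n) * ηs / 16
    positivity
  · intro w i q
    exact (htn w i (min (q / N) n) (min_le_right _ _) _ (hk0 q) (hk1 q) _ (hkN w i q)).1
  · -- steps
    intro w i q hq
    have hjn : q / N < n := hdiv q hq
    have hmin : min (q / N) n = q / N := min_eq_left hjn.le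
    set j := q / N with hj
    set k := q % N with hk
    have hkN' : k < N := Nat.mod_lt q hNpos
    have hqjk : q = N * j + k := (Nat.div_add_mod q N).symm
    obtain ⟨hn1, hn2⟩ := htt1 w i j hjn
    have hηj := hηN i j hjn
    have hτp := hτpos w i j hjn.le
    refine ⟨tt w i j / N, ?_, ?_⟩
    · show _ ≤ τ w i (min (q / N) n) * ηs / 16 / 4
      rw [← hj, hmin, norm_div]
      have h1 : ‖(N : ℂ)‖ = N := by simp
      rw [h1, div_le_iff₀ hNR]
      have h2 : τ w i j * (C i).η j ≤ τ w i j * (N * ηs) := mul_le_mul_of_nonneg_left hηj hτp.le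
      calc ‖tt w i j‖ ≤ τ w i j * (C i).η j / 64 := hn1
        _ ≤ τ w i j * (N * ηs) / 64 := by linarith
        _ = τ w i j * ηs / 16 / 4 * N := by ring
    · have hyq : y w i q = T.Phi (pt w i j) ((k : ℂ) / N * tt w i j) := by
        show T.Phi (pt w i (min (q / N) n)) _ = _
        rw [← hj, hmin]
      have hNC : (N : ℂ) ≠ 0 := by exact_mod_cast hNpos.ne'
      have hrho' := (hstep w i j hjn (pt w i j) (hpt1 w i j hjn.le)).1
      have hηjp := hηpos i j hjn
      have h1 : ‖(k : ℂ) / N * tt w i j‖ + ‖tt w i j / N‖ < T.rho (pt w i j) := by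
        rw [norm_mul, norm_div, norm_div]
        simp only [Complex.norm_natCast]
        have h2 : (k : ℝ) / N * ‖tt w i j‖ + ‖tt w i j‖ / N = ((k : ℝ) + 1) / N * ‖tt w i j‖ := by
          ring
        rw [h2]
        have h3 : ((k : ℝ) + 1) / N ≤ 1 := by
          rw [div_le_one hNR]; exact_mod_cast hkN'
        have h4 : ((k : ℝ) + 1) / N * ‖tt w i j‖ ≤ 1 * ‖tt w i j‖ :=
          mul_le_mul_of_nonneg_right h3 (norm_nonneg _)
        have h5 : 0 < τ w i j * (C i).η j := mul_pos hτp hηjp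
        linarith
      rw [hyq, T.Phi_add _ _ _ h1]
      have h2 : (k : ℂ) / N * tt w i j + tt w i j / N = ((k : ℂ) + 1) / N * tt w i j := by ring
      rw [h2]
      by_cases hk' : k + 1 < N
      · have hd : (q + 1) / N = j := by
          rw [hqjk]
          rw [show N * j + k + 1 = N * j + (k + 1) by ring, Nat.mul_add_div hNpos,
            Nat.div_eq_of_lt hk']
          simp
        have hm : (q + 1) % N = k + 1 := by
          rw [hqjk]
          rw [show N * j + k + 1 = N * j + (k + 1) by ring, Nat.mul_add_mod, Nat.mod_eq_of_lt hk']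
        show T.Phi (pt w i (min ((q + 1) / N) n)) ((((q + 1) % N : ℕ) : ℂ) / (N : ℂ) *
          tt w i (min ((q + 1) / N) n)) = _
        rw [hd, hm, hmin]
        push_cast
        ring_nf
      · have hk'' : k + 1 = N := by omega
        have hd : (q + 1) / N = j + 1 := by
          rw [hqjk]
          rw [show N * j + k + 1 = N * (j + 1) by rw [← hk'']; ring]
          exact Nat.mul_div_cancel_left _ hNpos
        have hm : (q + 1) % N = 0 := by
          rw [hqjk]
          rw [show N * j + k + 1 = N * (j + 1) by rw [← hk'']; ring]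
          exact Nat.mul_mod_right _ _
        show T.Phi (pt w i (min ((q + 1) / N) n)) ((((q + 1) % N : ℕ) : ℂ) / (N : ℂ) *
          tt w i (min ((q + 1) / N) n)) = _
        rw [hd, hm, min_eq_left (Nat.succ_le_of_lt hjn)]
        have h3 : ((k : ℂ) + 1) / N = 1 := by
          have : (k : ℂ) + 1 = N := by exact_mod_cast hk''
          rw [this, div_self hNC]
        rw [h3, one_mul, hn2]
        simp [T.Phi_zero]
  · -- ratio
    intro w i q hq
    have hjn : q / N < n := hdiv q hq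
    have hmin : min (q / N) n = q / N := min_eq_left hjn.le
    set j := q / N with hj
    set k := q % N with hk
    have hkN' : k < N := Nat.mod_lt q hNpos
    have hqjk : q = N * j + k := (Nat.div_add_mod q N).symm
    have hτp := hτpos w i j hjn.le
    have hr1 : r w i q = τ w i j * ηs / 16 := by
      show τ w i (min (q / N) n) * ηs / 16 = _
      rw [← hj, hmin]
    by_cases hk' : k + 1 < N
    · have hd : (q + 1) / N = j := by
        rw [hqjk]
        rw [show N * j + k + 1 = N * j + (k + 1) by ring, Nat.mul_add_div hNpos,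
          Nat.div_eq_of_lt hk']
        simp
      have hr2 : r w i (q + 1) = τ w i j * ηs / 16 := by
        show τ w i (min ((q + 1) / N) n) * ηs / 16 = _
        rw [hd, hmin]
      rw [hr1, hr2]
      have : 0 < τ w i j * ηs := mul_pos hτp hηs0
      constructor <;> linarith
    · have hk'' : k + 1 = N := by omega
      have hd : (q + 1) / N = j + 1 := by
        rw [hqjk]
        rw [show N * j + k + 1 = N * (j + 1) by rw [← hk'']; ring]
        exact Nat.mul_div_cancel_left _ hNpos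
      have hr2 : r w i (q + 1) = τ w i (j + 1) * ηs / 16 := by
        show τ w i (min ((q + 1) / N) n) * ηs / 16 = _
        rw [hd, min_eq_left (Nat.succ_le_of_lt hjn)]
      rw [hr1, hr2]
      -- speed
      have hl := (C i).loc j hjn
      have hmem : (C i).v (j + 1) ∈ ball ((C i).v j) ((C i).η j) :=
        ball_subset_ball (by have := hl.η_pos; linarith) (it_mem (C i) j hjn)
      have hsp := hl.speed _ hmem (Z w i j) (hZδ w i j hjn)
      have hB1 : F.inf.B ((C i).v j) (Z w i j) ≠ 0 := loc_B hl (hZδ w i j hjn)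
      have hB2 : F.inf.B ((C i).v (j + 1)) (Z w i (j + 1)) ≠ 0 :=
        (hl.sol _ (hZδ w i j hjn) _ hmem).1
      have hz1 : Z w i j ≠ 0 := hZne w i j hjn.le
      set U := Z w i (j + 1) ^ (F.d - 1) * F.inf.B ((C i).v j) (Z w i j) with hUdef
      set V := Z w i j ^ (F.d - 1) * F.inf.B ((C i).v (j + 1)) (Z w i (j + 1)) with hVdef
      have hsp' : ‖U - V‖ ≤ ‖V‖ / 2 := hsp
      have hUV1 : ‖U‖ ≤ 3 / 2 * ‖V‖ := by
        have := norm_sub_norm_le U V
        linarith
      have hUV2 : ‖V‖ / 2 ≤ ‖U‖ := by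
        have h1 := norm_sub_norm_le V U
        rw [norm_sub_rev] at h1
        linarith
      have hnU : ‖U‖ = ‖Z w i (j + 1)‖ ^ (F.d - 1) * ‖F.inf.B ((C i).v j) (Z w i j)‖ := by
        rw [hUdef, norm_mul, norm_pow]
      have hnV : ‖V‖ = ‖Z w i j‖ ^ (F.d - 1) *
          ‖F.inf.B ((C i).v (j + 1)) (Z w i (j + 1))‖ := by
        rw [hVdef, norm_mul, norm_pow]
      have hb1 : 0 < ‖F.inf.B ((C i).v j) (Z w i j)‖ := norm_pos_iff.mpr hB1
      have hb2 : 0 < ‖F.inf.B ((C i).v (j + 1)) (Z w i (j + 1))‖ := norm_pos_iff.mpr hB2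
      have hτj : τ w i j = ‖V‖ / (‖F.inf.B ((C i).v j) (Z w i j)‖ *
          ‖F.inf.B ((C i).v (j + 1)) (Z w i (j + 1))‖) := by
        show ‖Z w i j‖ ^ (F.d - 1) / ‖F.inf.B ((C i).v j) (Z w i j)‖ = _
        rw [hnV]; field_simp
      have hτj1 : τ w i (j + 1) = ‖U‖ / (‖F.inf.B ((C i).v j) (Z w i j)‖ *
          ‖F.inf.B ((C i).v (j + 1)) (Z w i (j + 1))‖) := by
        show ‖Z w i (j + 1)‖ ^ (F.d - 1) / ‖F.inf.B ((C i).v (j + 1)) (Z w i (j + 1))‖ = _
        rw [hnU]; field_simp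
      set D := ‖F.inf.B ((C i).v j) (Z w i j)‖ *
          ‖F.inf.B ((C i).v (j + 1)) (Z w i (j + 1))‖ with hDdef
      have hDpos : 0 < D := mul_pos hb1 hb2
      have e1 : τ w i j / 2 ≤ τ w i (j + 1) := by
        rw [hτj, hτj1, div_div, mul_comm D 2, ← div_div]
        exact div_le_div_of_nonneg_right hUV2 hDpos.le
      have e2 : τ w i (j + 1) ≤ 2 * τ w i j := by
        rw [hτj, hτj1, ← mul_div_assoc]
        apply div_le_div_of_nonneg_right _ hDpos.le
        have := norm_nonneg V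
        linarith
      constructor
      · have := mul_le_mul_of_nonneg_right e1 hηs0.le
        linarith
      · have := mul_le_mul_of_nonneg_right e2 hηs0.le
        linarith
  · -- disjointness
    intro w w' i q hlen hne hq
    rw [Set.disjoint_left]
    intro m hm hm'
    rcases lt_or_eq_of_le (min_le_right (q / N) n) with h | h
    · obtain ⟨s, hs, h1⟩ := hyd w i q m hm h
      obtain ⟨s', hs', h2⟩ := hyd w' i q m hm' h
      rw [h1] at h2
      have h3 := hplaque i _ h _ _ (hZδ w i _ h) (hZδ w' i _ h) (hZne w i _ h.le) s hs s' hs' h2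
      have h4 := it_inj (C i) hU ε (hεδ i) (x w) (x w') (hxlt w) (hxlt w') _ h.le h3
      exact hD2 w w' hlen hne h4
    · obtain ⟨h1, h2⟩ := hyn w i q h
      obtain ⟨h1', h2'⟩ := hyn w' i q h
      rw [h1, h2] at hm
      rw [h1', h2'] at hm'
      obtain ⟨s, hs, h3⟩ := hvert _ m hm
      obtain ⟨s', hs', h4⟩ := hvert _ m hm'
      rw [h3] at h4
      have hzδ : ∀ w, ‖x w‖ < (C false).δ 0 := fun w => by
        have := hZδ w false 0 hn
        rwa [hZ0] at this
      have h5 := hplaque false 0 hn _ _ (hzδ _) (hzδ _) (hx0 _) s hs s' hs' h4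
      exact hD2 (i :: w) (i :: w') (by simp [hlen]) (by simpa using hne) h5
  · -- escape
    intro q
    have hcont : ContinuousOn (fun t => (((T.Phi q t : {q : ℂ × ℂ // F.Lf p q}) : ℂ × ℂ)).1)
        (closedBall (0 : ℂ) (T.rho q / 2)) := by
      intro t ht
      have h1 : t ∈ ball (0 : ℂ) (T.rho q) := by
        have := T.rho_pos q
        rw [mem_closedBall] at ht
        rw [mem_ball]; linarith
      have h2 := (hT.int q t h1).continuousAt
      exact (continuous_fst.continuousAt.comp h2).continuousWithinAt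
    obtain ⟨R, hR⟩ := (isCompact_closedBall (0 : ℂ) (T.rho q / 2)).exists_bound_of_continuousOn hcont
    have hlim : Tendsto (fun m : ℕ => ((1 : ℝ) / 2) ^ m) atTop (𝓝 0) :=
      tendsto_pow_atTop_nhds_zero_of_lt_one (by norm_num) (by norm_num)
    have hev : ∀ᶠ m : ℕ in atTop, ((1 : ℝ) / 2) ^ m < 1 / (2 * ‖z₀‖ * (|R| + 1)) := by
      apply hlim.eventually_lt_const
      positivity
    obtain ⟨N', hN'⟩ := Filter.eventually_atTop.mp hev
    refine ⟨N', fun w hw => ?_⟩
    rw [Set.disjoint_left]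
    rintro m hm ⟨t, ht, rfl⟩
    obtain ⟨h1, h2⟩ := hy0 w false
    rw [h1, h2] at hm
    have hm2 : T.Phi q t ∈ T.disc (pt w false 0) (2 * (τ w false 0 * ηs / 16)) := by
      obtain ⟨t', ht', h3⟩ := hm
      refine ⟨t', ?_, h3⟩
      have hτp := hτpos w false 0 hn.le
      have : 0 < τ w false 0 * ηs := mul_pos hτp hηs0
      rw [mem_ball] at ht' ⊢
      linarith
    obtain ⟨s, hs, h3⟩ := hvert w _ hm2
    have h4 := hR t ht
    simp only [h3, aff] at h4
    have hl := (C false).loc 0 hn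
    have hxδ : ‖x w‖ < (C false).δ 0 := by
      have := hZδ w false 0 hn
      rwa [hZ0] at this
    have h5 := (hl.size s hs (x w) hxδ)
    have h6 := hxle w
    have h7 := hN' w.length hw
    have hzp : 0 < ‖z₀‖ := hz0
    have hxp : 0 < ‖x w‖ := norm_pos_iff.mpr (hx0 w)
    have h8 : 0 < ‖(C false).ζ 0 s (x w)‖ := by linarith [h5.1]
    have h9 : ‖(C false).ζ 0 s (x w)‖ ≤ 2 * (((1 : ℝ) / 2) ^ w.length * ‖z₀‖) := by
      linarith [h5.2]
    have h10 : 2 * (((1 : ℝ) / 2) ^ w.length * ‖z₀‖) * (|R| + 1) < 1 := by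
      rw [lt_div_iff₀ (by positivity)] at h7
      linarith
    rw [norm_div, norm_one, div_le_iff₀ h8] at h4
    have h11 : R ≤ |R| := le_abs_self R
    have h12 : R * ‖(C false).ζ 0 s (x w)‖ ≤ |R| * ‖(C false).ζ 0 s (x w)‖ :=
      mul_le_mul_of_nonneg_right h11 h8.le
    have h13 : (|R| + 1) * ‖(C false).ζ 0 s (x w)‖ < 1 := by
      have := mul_le_mul_of_nonneg_right h9 (by positivity : 0 ≤ |R| + 1)
      linarith
    nlinarith [abs_nonneg R]

end Pool.GL.Helper99
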