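import Pool.Agent.Helper99.GL.FSpec

set_option autoImplicit false

open Metric Set Filter Topology

namespace Pool.GL.Helper99

/-- iterated transit maps along a chain -/
def it (v : ℕ → ℂ) (ζ : ℕ → ℂ → ℂ → ℂ) : ℕ → ℂ → ℂ
  | 0 => fun z => z
  | j + 1 => fun z => ζ j (v (j + 1)) (it v ζ j z)

theorem it_shift (v : ℕ → ℂ) (ζ : ℕ → ℂ → ℂ → ℂ) (j : ℕ) (z : ℂ) :
    it v ζ (j + 1) z = it (fun k => v (k + 1)) (fun k => ζ (k + 1)) j (ζ 0 (v 1) z) := by
  induction j with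
  | zero => rfl
  | succ j ih =>
    show ζ (j + 1) (v (j + 1 + 1)) (it v ζ (j + 1) z) = _
    rw [ih]; rfl

structure Ch (I : Inf) (n : ℕ) (a b : ℂ) where
  v : ℕ → ℂ
  η : ℕ → ℝ
  δ : ℕ → ℝ
  ζ : ℕ → ℂ → ℂ → ℂ
  h0 : v 0 = a
  hn : v n = b
  loc : ∀ j < n, I.Loc (v j) (η j) (δ j) (ζ j)
  stp : ∀ j < n, ‖v (j + 1) - v j‖ < η j / 96

theorem loc_tendsto {I : Inf} {a : ℂ} {η δ : ℝ} {ζ : ℂ → ℂ → ℂ} (h : I.Loc a η δ ζ) {s : ℂ}
    (hs : s ∈ ball a η) : Tendsto (fun z => ζ s z) (𝓝 0) (𝓝 0) := by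
  have h1 : ContinuousAt (fun z => ζ s z) 0 :=
    ((h.diffz s hs).differentiableAt (ball_mem_nhds _ h.δ_pos)).continuousAt
  have h2 := h1.tendsto
  rw [h.zero s hs] at h2
  exact h2

theorem hol_unfold (I : Inf) (n : ℕ) (a b : ℂ) (h : ℂ → ℂ) (H : I.Hol n a b h) :
    ∃ c : Ch I n a b, ∀ᶠ z in 𝓝 (0 : ℂ), h z = it c.v c.ζ n z := by
  induction H with
  | nil a h ha hh =>
    refine ⟨⟨fun _ => a, fun _ => 0, fun _ => 0, fun _ _ _ => 0, rfl, rfl,
      fun j hj => absurd hj (Nat.not_lt_zero j), fun j hj => absurd hj (Nat.not_lt_zero j)⟩, ?_⟩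
    filter_upwards [hh] with z hz
    exact hz
  | cons n a b c g h k hT hH hk ih =>
    obtain ⟨C, hC⟩ := ih
    obtain ⟨η, δ, ζ, hloc, -, hab, hg⟩ := hT
    let v' : ℕ → ℂ := fun j => Nat.casesOn j a (fun i => C.v i)
    let η' : ℕ → ℝ := fun j => Nat.casesOn j η (fun i => C.η i)
    let δ' : ℕ → ℝ := fun j => Nat.casesOn j δ (fun i => C.δ i)
    let ζ' : ℕ → ℂ → ℂ → ℂ := fun j => Nat.casesOn j ζ (fun i => C.ζ i)
    refine ⟨⟨v', η', δ', ζ', rfl, C.hn, ?_, ?_⟩, ?_⟩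
    · intro j hj
      cases j with
      | zero => exact hloc
      | succ j => exact C.loc j (Nat.lt_of_succ_lt_succ hj)
    · intro j hj
      cases j with
      | zero => show ‖C.v 0 - a‖ < η / 96; rw [C.h0]; exact hab
      | succ j => exact C.stp j (Nat.lt_of_succ_lt_succ hj)
    · have hbm : b ∈ ball a η := by
        rw [mem_ball, dist_eq_norm]
        have := hloc.η_pos
        linarith
      have ht := loc_tendsto hloc hbm
      have h1 := ht.eventually hC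
      filter_upwards [hk, hg, h1] with z hz1 hz2 hz3
      rw [hz1, hz2, hz3]
      show _ = it v' ζ' (n + 1) z
      rw [it_shift]
      show _ = it C.v C.ζ n (ζ (C.v 0) z)
      rw [C.h0]

section chain
variable {I : Inf} {n : ℕ} {a b : ℂ} (C : Ch I n a b)

theorem it_size (ε : ℝ) (hε : ∀ j < n, 2 ^ j * ε ≤ C.δ j) (z : ℂ) (hz : ‖z‖ < ε) :
    ∀ j ≤ n, ‖it C.v C.ζ j z‖ ≤ 2 ^ j * ‖z‖ ∧ (z ≠ 0 → it C.v C.ζ j z ≠ 0) ∧
      (j < n → ‖it C.v C.ζ j z‖ < C.δ j) := by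
  have hlt : ∀ j < n, ∀ r : ℝ, r ≤ 2 ^ j * ‖z‖ → r < C.δ j := by
    intro j hj r hr
    have h1 : (2 : ℝ) ^ j * ‖z‖ < 2 ^ j * ε := by
      have : (0 : ℝ) < 2 ^ j := by positivity
      exact mul_lt_mul_of_pos_left hz this
    exact lt_of_le_of_lt hr (lt_of_lt_of_le h1 (hε j hj))
  intro j
  induction j with
  | zero =>
    intro _
    refine ⟨by simp [it], fun h => h, fun hj => ?_⟩
    exact hlt 0 hj _ (by simp [it])
  | succ j ih =>
    intro hj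
    obtain ⟨h1, h2, h3⟩ := ih (Nat.le_of_succ_le hj)
    have hjn : j < n := hj
    have hl := C.loc j hjn
    have hmem : C.v (j + 1) ∈ ball (C.v j) (C.η j) := by
      rw [mem_ball, dist_eq_norm]
      have := C.stp j hjn
      have := hl.η_pos
      linarith
    have hs := hl.size _ hmem _ (h3 hjn)
    have h4 : ‖it C.v C.ζ (j + 1) z‖ ≤ 2 ^ (j + 1) * ‖z‖ := by
      show ‖C.ζ j (C.v (j + 1)) (it C.v C.ζ j z)‖ ≤ _
      calc _ ≤ 2 * ‖it C.v C.ζ j z‖ := hs.2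
        _ ≤ 2 * (2 ^ j * ‖z‖) := by linarith
        _ = 2 ^ (j + 1) * ‖z‖ := by ring
    refine ⟨h4, ?_, fun hj' => hlt _ hj' _ h4⟩
    intro hz0 h0
    have h5 : 0 < ‖it C.v C.ζ j z‖ := norm_pos_iff.mpr (h2 hz0)
    have h6 : ‖C.ζ j (C.v (j + 1)) (it C.v C.ζ j z)‖ = 0 := by
      have : C.ζ j (C.v (j + 1)) (it C.v C.ζ j z) = 0 := h0
      rw [this]; simp
    have := hs.1
    linarith

theorem it_mem (j : ℕ) (hj : j < n) : C.v (j + 1) ∈ ball (C.v j) (C.η j / 96) := by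
  rw [mem_ball, dist_eq_norm]; exact C.stp j hj

theorem it_inj (hU : S_SOLUNI) (ε : ℝ) (hε : ∀ j < n, 2 ^ j * ε ≤ C.δ j) (z z' : ℂ) (hz : ‖z‖ < ε)
    (hz' : ‖z'‖ < ε) : ∀ j ≤ n, it C.v C.ζ j z = it C.v C.ζ j z' → z = z' := by
  intro j
  induction j with
  | zero => intro _ h; exact h
  | succ j ih =>
    intro hj h
    have hjn : j < n := hj
    apply ih (Nat.le_of_succ_le hj)
    have hl := C.loc j hjn
    have hmem : C.v (j + 1) ∈ ball (C.v j) (C.η j) := by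
      have := it_mem C j hjn
      exact ball_subset_ball (by have := hl.η_pos; linarith) this
    have h1 := (it_size C ε hε z hz j (Nat.le_of_succ_le hj)).2.2 hjn
    have h2 := (it_size C ε hε z' hz' j (Nat.le_of_succ_le hj)).2.2 hjn
    have h3 := hU I (ball (C.v j) (C.η j)) isOpen_ball (convex_ball _ _).isPreconnected _ _
      (hl.sol _ h1) (hl.sol _ h2) _ hmem h (C.v j) (mem_ball_self hl.η_pos)
    rw [hl.init _ h1, hl.init _ h2] at h3
    exact h3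

end chain

end Pool.GL.Helper99
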