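import Pool.Agent.Helper99.GL.FSpec

set_option autoImplicit false

open Metric Set Filter Topology

namespace Pool.GL.Helper99

open Classical in
theorem AFF (hTS : S_LEAFTS) (hHOL : S_LEAFHOL) (hTREE : S_TREE) (hESC : S_ESC) (hHARM : S_HARM)
    (hTG : S_TREE_GOOD) : S_AFF := by
  intro F hF p hp hna
  obtain ⟨s₀, hs₀, ε, hε, hT⟩ := hTREE F hF
  obtain ⟨T, hTL⟩ := hTS F p hp
  by_cases hz : ∃ z : ℂ, 0 < ‖z‖ ∧ ‖z‖ < ε ∧ F.Lf p (aff s₀ z)
  · obtain ⟨z, hz0, hz1, hz2⟩ := hz
    obtain ⟨tree⟩ := hT p hp T hTL z hz0 hz1 hz2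
    obtain ⟨u, ⟨K, hK⟩, ⟨q₁, q₂, hq⟩, hu⟩ := hTG _ T tree
    refine ⟨fun q => if h : F.Lf p q then u ⟨q, h⟩ else 0, ⟨K, ?_⟩, ⟨q₁.1, q₂.1, q₁.2, q₂.2, ?_⟩, ?_⟩
    · intro q hq
      simp only [hq, dif_pos]
      exact hK _
    · simp only [q₁.2, q₂.2, dif_pos]
      exact hq
    · intro c hc hcl
      set c' : ℂ → {q : ℂ × ℂ // F.Lf p q} := fun t =>
        if h : F.Lf p (c t) then ⟨c t, h⟩ else ⟨p, Relation.ReflTransGen.refl⟩ with hc'
      have hcc : ∀ t ∈ ball (0 : ℂ) 1, ((c' t : {q : ℂ × ℂ // F.Lf p q}) : ℂ × ℂ) = c t := by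
        intro t ht
        simp only [hc', hcl t ht, dif_pos]
      have hD := hHOL F p T hp hTL c c' hc hcc
      obtain ⟨h1, h2⟩ := hu c' hD
      have key : ∀ t ∈ ball (0 : ℂ) 1,
          (if h : F.Lf p (c t) then u ⟨c t, h⟩ else 0) = u (c' t) := by
        intro t ht
        simp only [hc', hcl t ht, dif_pos]
      constructor
      · have : UpperSemicontinuousOn (fun t => u (c' t)) (ball (0 : ℂ) 1) := h1
        intro t ht y hy
        have hy' : u (c' t) < y := by
          have := key t ht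
          simp only at hy
          rw [← this]; exact hy
        have h3 := this t ht y hy'
        filter_upwards [h3, self_mem_nhdsWithin] with t' ht' ht'2
        show (if h : F.Lf p (c t') then u ⟨c t', h⟩ else 0) < y
        rw [key t' ht'2]; exact ht'
      · intro z r hr hzr
        have h3 := h2 z r hr hzr
        have hzin : z ∈ ball (0 : ℂ) 1 := hzr (mem_closedBall_self hr.le)
        show 2 * Real.pi * (if h : F.Lf p (c z) then u ⟨c z, h⟩ else 0) ≤ _
        rw [key z hzin]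
        have : (fun θ => (if h : F.Lf p (c (circleMap z r θ)) then
            u ⟨c (circleMap z r θ), h⟩ else 0)) = fun θ => u (c' (circleMap z r θ)) := by
          funext θ
          exact key _ (hzr (circleMap_mem_closedBall z hr.le θ))
        rw [this]
        exact h3
  · push Not at hz
    have hz' : ∀ z : ℂ, 0 < ‖z‖ → ‖z‖ < ε → ¬ F.Lf p (aff s₀ z) := fun z h1 h2 => hz z h1 h2
    obtain ⟨R, hR0, hRc, K, hK⟩ := hESC F hF s₀ hs₀ ε hε p hp hz'
    refine hHARM F p R K hK ?_
    intro c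
    have hne : R - MvPolynomial.C c ≠ 0 := by
      intro h
      have h1 : R = MvPolynomial.C c := sub_eq_zero.mp h
      rw [h1] at hRc
      simp at hRc
      rw [hRc] at h1
      simp at h1
      exact hR0 h1
    obtain ⟨q, hq1, hq2⟩ := hna _ hne
    refine ⟨q, hq1, ?_⟩
    intro h
    apply hq2
    simp [h]

end Pool.GL.Helper99
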