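import Pool.Agent.Helper99.GL.TSDefs

/-!
Swarm `GL` (MP_a31c1c_an, frozen S05669), foliation half: definitions.
See `GLF_BLUEPRINT.md` (team-store).
-/

set_option autoImplicit false

open Metric Set Filter Topology

namespace Pool.GL

/-! ### polynomial vector fields on `ℂ²` and their leaves -/

/-- polynomial vector field `(P, Q)` on `ℂ²` with a degree bound `d` -/
structure Fld where
  d : ℕ
  P : MvPolynomial (Fin 2) ℂ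
  Q : MvPolynomial (Fin 2) ℂ

/-- value of the field -/
noncomputable def Fld.W (F : Fld) (p : ℂ × ℂ) : ℂ × ℂ :=
  (MvPolynomial.eval ![p.1, p.2] F.P, MvPolynomial.eval ![p.1, p.2] F.Q)

/-- `φ` is an integral disc of radius `r` -/
def Fld.IsInt (F : Fld) (φ : ℂ → ℂ × ℂ) (r : ℝ) : Prop :=
  ∀ t ∈ ball (0 : ℂ) r, HasDerivAt φ (F.W (φ t)) t

def Fld.Step (F : Fld) (x y : ℂ × ℂ) : Prop :=
  ∃ (φ : ℂ → ℂ × ℂ) (r : ℝ), 0 < r ∧ F.IsInt φ r ∧ φ 0 = x ∧ ∃ t ∈ ball (0 : ℂ) r, φ t = y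

/-- `y` is on the leaf of `x` -/
def Fld.Lf (F : Fld) : ℂ × ℂ → ℂ × ℂ → Prop := Relation.ReflTransGen F.Step

/-- tangent discs -/
def Fld.TanD (F : Fld) (c : ℂ → ℂ × ℂ) : Prop :=
  DifferentiableOn ℂ c (ball (0 : ℂ) 1) ∧
    ∀ t ∈ ball (0 : ℂ) 1, F.W (c t) ≠ 0 ∧ ∃ b : ℂ, deriv c t = b • F.W (c t)

/-- the translation surface structure of a leaf -/
structure Fld.IsLeafTS (F : Fld) (p : ℂ × ℂ) (T : TS {q : ℂ × ℂ // F.Lf p q}) : Prop where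
  int : ∀ x : {q : ℂ × ℂ // F.Lf p q},
    F.IsInt (fun t => ((T.Phi x t : {q : ℂ × ℂ // F.Lf p q}) : ℂ × ℂ)) (T.rho x)
  max : ∀ (x : {q : ℂ × ℂ // F.Lf p q}) (φ : ℂ → ℂ × ℂ) (r : ℝ), 0 < r → r ≤ 1 → F.IsInt φ r →
    φ 0 = (x : ℂ × ℂ) → InjOn φ (ball (0 : ℂ) r) →
    r ≤ T.rho x ∧ ∀ t ∈ ball (0 : ℂ) r, ((T.Phi x t : {q : ℂ × ℂ // F.Lf p q}) : ℂ × ℂ) = φ t

/-! ### the chart at infinity `x = 1/z, y = s/z` -/

/-- the chart at infinity -/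
noncomputable def aff (s z : ℂ) : ℂ × ℂ := (1 / z, s / z)

/-- data of a foliation `ds/B = dz/(zA)` in the chart at infinity, `A = ∑ z^m a_m(s)`,
`B = ∑ z^m b_m(s)` -/
structure Inf where
  d : ℕ
  a : ℕ → Polynomial ℂ
  b : ℕ → Polynomial ℂ

noncomputable def Inf.A (I : Inf) (s z : ℂ) : ℂ :=
  ∑ m ∈ Finset.range (I.d + 1), z ^ m * (I.a m).eval s

noncomputable def Inf.B (I : Inf) (s z : ℂ) : ℂ :=
  ∑ m ∈ Finset.range (I.d + 1), z ^ m * (I.b m).eval s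

/-- the regular points of the line at infinity (the direction `s = ∞` is also regular) -/
def Inf.Om (I : Inf) : Set ℂ := {s | (I.b 0).eval s ≠ 0}

structure Inf.Good (I : Inf) : Prop where
  hd : 2 ≤ I.d
  dega : ∀ m, m ≤ I.d → (I.a m).natDegree ≤ I.d - m
  degb : ∀ m, m ≤ I.d → (I.b m).natDegree ≤ I.d + 1 - m
  lead : (I.b 0).coeff (I.d + 1) ≠ 0
  leadeq : (I.a 0).coeff I.d = (I.b 0).coeff (I.d + 1)
  hyp : ∀ s, (I.b 0).eval s = 0 → (Polynomial.derivative (I.b 0)).eval s ≠ 0 ∧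
    ((I.a 0).eval s / (Polynomial.derivative (I.b 0)).eval s).im ≠ 0

/-- chart data of a field -/
noncomputable def Fld.inf (F : Fld) : Inf where
  d := F.d
  a m := - MvPolynomial.aeval ![(1 : Polynomial ℂ), Polynomial.X]
    (MvPolynomial.homogeneousComponent (F.d - m) F.P)
  b m := MvPolynomial.aeval ![(1 : Polynomial ℂ), Polynomial.X]
      (MvPolynomial.homogeneousComponent (F.d - m) F.Q) -
    Polynomial.X * MvPolynomial.aeval ![(1 : Polynomial ℂ), Polynomial.X]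
      (MvPolynomial.homogeneousComponent (F.d - m) F.P)

/-- the standing hypotheses on the affine field -/
structure Fld.Good (F : Fld) : Prop where
  hd : 2 ≤ F.d
  degP : F.P.totalDegree ≤ F.d
  degQ : F.Q.totalDegree ≤ F.d
  lead : (F.inf.b 0).coeff (F.d + 1) ≠ 0
  hypInf : ∀ s, (F.inf.b 0).eval s = 0 → (Polynomial.derivative (F.inf.b 0)).eval s ≠ 0 ∧
    ((F.inf.a 0).eval s / (Polynomial.derivative (F.inf.b 0)).eval s).im ≠ 0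
  hypAff : ∀ p : ℂ × ℂ, F.W p = 0 → ∃ ν₁ ν₂ : ℂ, (ν₁ / ν₂).im ≠ 0 ∧
    MvPolynomial.eval ![p.1, p.2] (MvPolynomial.pderiv 0 F.P) +
      MvPolynomial.eval ![p.1, p.2] (MvPolynomial.pderiv 1 F.Q) = ν₁ + ν₂ ∧
    MvPolynomial.eval ![p.1, p.2] (MvPolynomial.pderiv 0 F.P) *
      MvPolynomial.eval ![p.1, p.2] (MvPolynomial.pderiv 1 F.Q) -
    MvPolynomial.eval ![p.1, p.2] (MvPolynomial.pderiv 1 F.P) *
      MvPolynomial.eval ![p.1, p.2] (MvPolynomial.pderiv 0 F.Q) = ν₁ * ν₂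

/-! ### solutions, local families, transit germs, holonomy -/

/-- `ζ` solves `dz/ds = zA/B` on `N` -/
def Inf.Sol (I : Inf) (N : Set ℂ) (ζ : ℂ → ℂ) : Prop :=
  ∀ s ∈ N, I.B s (ζ s) ≠ 0 ∧ HasDerivAt ζ (ζ s * I.A s (ζ s) / I.B s (ζ s)) s

/-- `ζ s z` is the value at `s` of the leaf through `(a, z)`: local family around `s = a` -/
structure Inf.Loc (I : Inf) (a : ℂ) (η δ : ℝ) (ζ : ℂ → ℂ → ℂ) : Prop where
  η_pos : 0 < η
  δ_pos : 0 < δ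
  init : ∀ z : ℂ, ‖z‖ < δ → ζ a z = z
  zero : ∀ s ∈ ball a η, ζ s 0 = 0
  sol : ∀ z : ℂ, ‖z‖ < δ → I.Sol (ball a η) (fun s => ζ s z)
  diffz : ∀ s ∈ ball a η, DifferentiableOn ℂ (fun z => ζ s z) (ball (0 : ℂ) δ)
  cont : ContinuousOn (fun q : ℂ × ℂ => ζ q.1 q.2) (ball a η ×ˢ ball (0 : ℂ) δ)
  size : ∀ s ∈ ball a η, ∀ z : ℂ, ‖z‖ < δ → ‖z‖ / 2 ≤ ‖ζ s z‖ ∧ ‖ζ s z‖ ≤ 2 * ‖z‖
  speed : ∀ s ∈ ball a η, ∀ z : ℂ, ‖z‖ < δ →
    ‖ζ s z ^ (I.d - 1) * I.B a z - z ^ (I.d - 1) * I.B s (ζ s z)‖ ≤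
      ‖z ^ (I.d - 1) * I.B s (ζ s z)‖ / 2

/-- one small step: `h` is the germ of the transit map from `{s = a}` to `{s = b}` -/
def Inf.Tr (I : Inf) (a b : ℂ) (h : ℂ → ℂ) : Prop :=
  ∃ (η δ : ℝ) (ζ : ℂ → ℂ → ℂ), I.Loc a η δ ζ ∧ (∃ (δ' : ℝ) (ζ' : ℂ → ℂ → ℂ), I.Loc b η δ' ζ') ∧
    ‖b - a‖ < η / 96 ∧ ∀ᶠ z in 𝓝 (0 : ℂ), h z = ζ b z

/-- `h` is the holonomy germ of a chain of `n` steps from `a` to `b` -/
inductive Inf.Hol (I : Inf) : ℕ → ℂ → ℂ → (ℂ → ℂ) → Prop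
  | nil (a : ℂ) (h : ℂ → ℂ) : a ∈ I.Om → (∀ᶠ z in 𝓝 (0 : ℂ), h z = z) → Inf.Hol I 0 a a h
  | cons (n : ℕ) (a b c : ℂ) (g h k : ℂ → ℂ) : I.Tr a b g → Inf.Hol I n b c h →
      (∀ᶠ z in 𝓝 (0 : ℂ), k z = h (g z)) → Inf.Hol I (n + 1) a c k

/-- words in two maps (the head of the list is applied last) -/
def wordMap (G : Bool → ℂ → ℂ) : List Bool → ℂ → ℂ
  | [] => fun z => z
  | i :: w => fun z => G i (wordMap G w z)

end Pool.GL
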