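import Pool.Agent.Helper99.GL.FDefs

/-!
Swarm `GL` (MP_a31c1c_an, frozen S05669), foliation half: statements of the parts.
See `GLF_BLUEPRINT.md` (team-store).
-/

set_option autoImplicit false

open Metric Set Filter Topology

namespace Pool.GL

/-! ### F01-F05 : complex ODE basics, curves in leaves, the leaf as a translation surface -/

/-- F01 local existence for holomorphic ODE in `ℂ²`, with a uniform radius -/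
def S_HODE : Prop := ∀ (U : Set (ℂ × ℂ)) (G : ℂ × ℂ → ℂ × ℂ), IsOpen U → ContDiffOn ℂ 1 G U →
  ∀ x₀ ∈ U, ∃ r > 0, ∃ ε > 0, ball x₀ r ⊆ U ∧ ∀ x ∈ ball x₀ r, ∃ φ : ℂ → ℂ × ℂ, φ 0 = x ∧
    ∀ t ∈ ball (0 : ℂ) ε, φ t ∈ U ∧ HasDerivAt φ (G (φ t)) t

/-- F02a uniqueness along real curves `γ' = k(t) G(γ)` -/
def S_UNIQ : Prop := ∀ (U : Set (ℂ × ℂ)) (G : ℂ × ℂ → ℂ × ℂ), IsOpen U → ContDiffOn ℂ 1 G U →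
  ∀ (k : ℝ → ℂ) (γ₁ γ₂ : ℝ → ℂ × ℂ) (T : ℝ), 0 ≤ T → ContinuousOn k (Icc 0 T) →
    (∀ t ∈ Icc 0 T, γ₁ t ∈ U ∧ γ₂ t ∈ U ∧
      HasDerivWithinAt γ₁ (k t • G (γ₁ t)) (Icc 0 T) t ∧
      HasDerivWithinAt γ₂ (k t • G (γ₂ t)) (Icc 0 T) t) →
    γ₁ 0 = γ₂ 0 → ∀ t ∈ Icc 0 T, γ₁ t = γ₂ t

/-- F02b uniqueness for the complex ODE -/
def S_UNIQC : Prop := ∀ (U : Set (ℂ × ℂ)) (G : ℂ × ℂ → ℂ × ℂ), IsOpen U → ContDiffOn ℂ 1 G U →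
  ∀ N : Set ℂ, IsOpen N → IsPreconnected N → ∀ φ₁ φ₂ : ℂ → ℂ × ℂ,
    (∀ t ∈ N, φ₁ t ∈ U ∧ φ₂ t ∈ U ∧ HasDerivAt φ₁ (G (φ₁ t)) t ∧ HasDerivAt φ₂ (G (φ₂ t)) t) →
    ∀ t₀ ∈ N, φ₁ t₀ = φ₂ t₀ → ∀ t ∈ N, φ₁ t = φ₂ t

/-- F02c uniqueness for `dz/ds = zA/B` -/
def S_SOLUNI : Prop := ∀ (I : Inf) (N : Set ℂ), IsOpen N → IsPreconnected N → ∀ ζ₁ ζ₂ : ℂ → ℂ,
  I.Sol N ζ₁ → I.Sol N ζ₂ → ∀ s₀ ∈ N, ζ₁ s₀ = ζ₂ s₀ → ∀ s ∈ N, ζ₁ s = ζ₂ s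

/-- F03 real curves tangent to the field stay in the leaf -/
def S_CURVE : Prop := ∀ (F : Fld) (γ : ℝ → ℂ × ℂ) (k : ℝ → ℂ) (T : ℝ), 0 ≤ T →
  ContinuousOn k (Icc 0 T) →
  (∀ t ∈ Icc 0 T, HasDerivWithinAt γ (k t • F.W (γ t)) (Icc 0 T) t) → F.Lf (γ 0) (γ T)

def S_LFSYM : Prop := ∀ (F : Fld) (x y : ℂ × ℂ), F.Lf x y → F.Lf y x

/-- F04 the leaf of a regular point is a translation surface -/
def S_LEAFTS : Prop := ∀ (F : Fld) (p : ℂ × ℂ), F.W p ≠ 0 →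
  ∃ T : TS {q : ℂ × ℂ // F.Lf p q}, F.IsLeafTS p T

/-- F05 tangent discs are holomorphic discs of the leaf -/
def S_LEAFHOL : Prop := ∀ (F : Fld) (p : ℂ × ℂ) (T : TS {q : ℂ × ℂ // F.Lf p q}), F.W p ≠ 0 →
  F.IsLeafTS p T → ∀ (c : ℂ → ℂ × ℂ) (c' : ℂ → {q : ℂ × ℂ // F.Lf p q}), F.TanD c →
    (∀ t ∈ ball (0 : ℂ) 1, ((c' t : {q : ℂ × ℂ // F.Lf p q}) : ℂ × ℂ) = c t) → T.HolDisc c'

/-! ### F06-F10 : the chart at infinity, local families, transit germs -/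

/-- F06a formula of the chart at infinity -/
def S_CHART : Prop := ∀ F : Fld, F.P.totalDegree ≤ F.d → F.Q.totalDegree ≤ F.d →
  ∀ s z : ℂ, z ≠ 0 → z ^ F.d * (F.W (aff s z)).1 = - F.inf.A s z ∧
    z ^ F.d * (F.W (aff s z)).2 = F.inf.B s z - s * F.inf.A s z

/-- F06b -/
def S_GINF : Prop := ∀ F : Fld, F.Good → F.inf.Good

/-- F07 local families with uniform radii on compact subsets of `Om` -/
def S_LOC : Prop := ∀ (I : Inf) (K : Set ℂ), IsCompact K → K ⊆ I.Om →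
  ∃ η > 0, ∃ δ > 0, ∀ a ∈ K, ∃ ζ : ℂ → ℂ → ℂ, I.Loc a η δ ζ

/-- F08 solutions in the chart at infinity stay in the leaf -/
def S_LK : Prop := ∀ F : Fld, F.P.totalDegree ≤ F.d → F.Q.totalDegree ≤ F.d →
  ∀ (N : Set ℂ), IsOpen N → Convex ℝ N → ∀ ζ : ℂ → ℂ, F.inf.Sol N ζ → (∀ s ∈ N, ζ s ≠ 0) →
    ∀ s ∈ N, ∀ s' ∈ N, F.Lf (aff s (ζ s)) (aff s' (ζ s'))

/-- F09 flow discs versus plaques -/
def S_GEO : Prop := ∀ F : Fld, 2 ≤ F.d → F.P.totalDegree ≤ F.d → F.Q.totalDegree ≤ F.d →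
  ∀ (p : ℂ × ℂ) (T : TS {q : ℂ × ℂ // F.Lf p q}), F.IsLeafTS p T →
  ∀ (a : ℂ) (η δ : ℝ) (ζ : ℂ → ℂ → ℂ), F.inf.Loc a η δ ζ → ∀ z : ℂ, 0 < ‖z‖ → ‖z‖ < δ →
  ∀ x : {q : ℂ × ℂ // F.Lf p q}, (x : ℂ × ℂ) = aff a z →
  ∀ τ : ℝ, τ = ‖z‖ ^ (F.d - 1) / ‖F.inf.B a z‖ → τ * η / 2 ≤ 1 →
    τ * η / 2 ≤ T.rho x ∧
    (∀ t : ℂ, ‖t‖ < τ * η / 2 → ∃ s ∈ ball a η,
      ((T.Phi x t : {q : ℂ × ℂ // F.Lf p q}) : ℂ × ℂ) = aff s (ζ s z)) ∧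
    (∀ s ∈ ball a (η / 96), ∃ t : ℂ, ‖t‖ ≤ τ * η / 64 ∧
      ((T.Phi x t : {q : ℂ × ℂ // F.Lf p q}) : ℂ × ℂ) = aff s (ζ s z))

/-- F10a analyticity and multiplier of a transit germ -/
def S_TR1 : Prop := ∀ (I : Inf) (a b : ℂ) (h : ℂ → ℂ), I.Tr a b h →
  AnalyticAt ℂ h 0 ∧ h 0 = 0 ∧ deriv h 0 ≠ 0 ∧
  (∀ E : ℂ → ℂ, (∀ s ∈ segment ℝ a b, HasDerivAt E ((I.a 0).eval s / (I.b 0).eval s) s) →
    deriv h 0 = Complex.exp (E b - E a))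

/-- F10b reversed step -/
def S_TR2 : Prop := ∀ (I : Inf) (a b : ℂ) (h : ℂ → ℂ), I.Tr a b h →
  a ∈ I.Om ∧ b ∈ I.Om ∧
  ∃ h' : ℂ → ℂ, I.Tr b a h' ∧ (∀ᶠ z in 𝓝 (0 : ℂ), h' (h z) = z) ∧
    (∀ᶠ z in 𝓝 (0 : ℂ), h (h' z) = z)

/-- F10c existence of small steps -/
def S_TR3 : Prop := ∀ (I : Inf) (a : ℂ), a ∈ I.Om → ∃ (η δ : ℝ) (ζ : ℂ → ℂ → ℂ), I.Loc a η δ ζ ∧
  ∀ b ∈ ball a (η / 96), I.Tr a b (ζ b)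

/-- F11a holonomy germs: analytic, invertible -/
def S_HOL1 : Prop := ∀ (I : Inf) (n : ℕ) (a b : ℂ) (h : ℂ → ℂ), I.Hol n a b h →
  AnalyticAt ℂ h 0 ∧ h 0 = 0 ∧ deriv h 0 ≠ 0 ∧
  ∃ h' : ℂ → ℂ, I.Hol n b a h' ∧ (∀ᶠ z in 𝓝 (0 : ℂ), h' (h z) = z) ∧
    (∀ᶠ z in 𝓝 (0 : ℂ), h (h' z) = z)

/-- F11b concatenation -/
def S_HOL2 : Prop := ∀ (I : Inf) (n m : ℕ) (a b c : ℂ) (g h : ℂ → ℂ), I.Hol n a b g →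
  I.Hol m b c h → I.Hol (n + m) a c (fun z => h (g z))

/-- F11c any two regular points are joined by a chain -/
def S_HOL3 : Prop := ∀ (I : Inf), I.Good → ∀ a ∈ I.Om, ∀ b ∈ I.Om, ∃ (n : ℕ) (h : ℂ → ℂ),
  I.Hol n a b h

/-! ### F12-F20 : two non-commuting holonomies -/

/-- F12 a contracting loop -/
def S_CONTR : Prop := ∀ I : Inf, I.Good → ∃ (s₀ : ℂ) (n : ℕ) (c : ℂ → ℂ), I.Hol n s₀ s₀ c ∧
  ‖deriv c 0‖ < 1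

/-- F13 Koenigs: the invariant vector field of a contraction -/
def S_KOE : Prop := ∀ c : ℂ → ℂ, AnalyticAt ℂ c 0 → c 0 = 0 → deriv c 0 ≠ 0 → ‖deriv c 0‖ < 1 →
  ∃ X : ℂ → ℂ, AnalyticAt ℂ X 0 ∧ X 0 = 0 ∧ deriv X 0 = 1 ∧
    ∀ h : ℂ → ℂ, AnalyticAt ℂ h 0 → h 0 = 0 → deriv h 0 ≠ 0 →
      (∀ᶠ z in 𝓝 (0 : ℂ), h (c z) = c (h z)) → ∀ᶠ z in 𝓝 (0 : ℂ), X (h z) = deriv h z * X z

/-- a family of germs of vector fields invariant under all transit germs -/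
def Inf.YFam (I : Inf) (Y : ℂ → ℂ → ℂ) : Prop :=
  ∀ a ∈ I.Om, AnalyticAt ℂ (Y a) 0 ∧ Y a 0 = 0 ∧ deriv (Y a) 0 = 1 ∧
    ∀ (b : ℂ) (h : ℂ → ℂ), I.Tr a b h → ∀ᶠ z in 𝓝 (0 : ℂ), Y b (h z) = deriv h z * Y a z

/-- F14 transport of an invariant field -/
def S_YFAM : Prop := ∀ I : Inf, I.Good → ∀ s₀ ∈ I.Om, ∀ X : ℂ → ℂ, AnalyticAt ℂ X 0 → X 0 = 0 →
  deriv X 0 = 1 →
  (∀ (m : ℕ) (h : ℂ → ℂ), I.Hol m s₀ s₀ h → ∀ᶠ z in 𝓝 (0 : ℂ), X (h z) = deriv h z * X z) →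
  ∃ Y : ℂ → ℂ → ℂ, I.YFam Y

/-- the system of linear ODE's for the coefficients of `B Y / z` -/
def Inf.PhiSys (I : Inf) (φ : ℕ → ℂ → ℂ) : Prop :=
  (∀ k, DifferentiableOn ℂ (φ k) I.Om) ∧ (∀ a ∈ I.Om, φ 0 a = (I.b 0).eval a) ∧
  ∀ (k : ℕ), ∀ a ∈ I.Om,
    ∑ m ∈ (Finset.range (I.d + 1)).filter (fun m => m ≤ k),
      ((I.b m).eval a * deriv (φ (k - m)) a
        + ((k : ℂ) - 2 * m) * (I.a m).eval a * φ (k - m) a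
        - (Polynomial.derivative (I.b m)).eval a * φ (k - m) a) = 0

/-- F15 -/
def S_COEF : Prop := ∀ (I : Inf) (Y : ℂ → ℂ → ℂ), I.YFam Y → ∃ φ : ℕ → ℂ → ℂ, I.PhiSys φ

/-- F16a boundedness at the roots of `b 0` (non-real exponent, spiral) -/
def S_ROOTB : Prop := ∀ I : Inf, I.Good → ∀ (k : ℕ), 1 ≤ k → ∀ (r : Polynomial ℂ) (φ : ℂ → ℂ),
  DifferentiableOn ℂ φ I.Om →
  (∀ s ∈ I.Om, (I.b 0).eval s * deriv φ s + ((k : ℂ) * (I.a 0).eval s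
    - (Polynomial.derivative (I.b 0)).eval s) * φ s = r.eval s) →
  ∀ s₁, (I.b 0).eval s₁ = 0 → ∃ δ > 0, ∃ C : ℝ, ∀ s, 0 < ‖s - s₁‖ → ‖s - s₁‖ < δ → ‖φ s‖ ≤ C

/-- F16b growth at infinity -/
def S_GROWB : Prop := ∀ I : Inf, I.Good → ∀ (k : ℕ), 1 ≤ k → ∀ (r : Polynomial ℂ) (φ : ℂ → ℂ),
  (r = 0 ∨ r.natDegree + k ≤ 2 * I.d + 1) → DifferentiableOn ℂ φ I.Om →
  (∀ s ∈ I.Om, (I.b 0).eval s * deriv φ s + ((k : ℂ) * (I.a 0).eval s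
    - (Polynomial.derivative (I.b 0)).eval s) * φ s = r.eval s) →
  ∃ R C : ℝ, 1 ≤ R ∧ ∀ s : ℂ, R < ‖s‖ →
    ‖φ s‖ * ‖s‖ ^ k ≤ C * ‖s‖ ^ (I.d + 1) * (1 + Real.log ‖s‖)

/-- F16c one equation -/
def S_ODEC : Prop := ∀ I : Inf, I.Good → ∀ (k : ℕ), 1 ≤ k → ∀ (r : Polynomial ℂ) (φ : ℂ → ℂ),
  (r = 0 ∨ r.natDegree + k ≤ 2 * I.d + 1) → DifferentiableOn ℂ φ I.Om →
  (∀ s ∈ I.Om, (I.b 0).eval s * deriv φ s + ((k : ℂ) * (I.a 0).eval s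
    - (Polynomial.derivative (I.b 0)).eval s) * φ s = r.eval s) →
  ∃ p : Polynomial ℂ, (∀ s ∈ I.Om, φ s = p.eval s) ∧ (k ≤ I.d + 1 → p.natDegree ≤ I.d + 1 - k) ∧
    (I.d + 1 < k → p = 0)

/-- polynomial solutions of the system -/
def Inf.PolSys (I : Inf) (p : ℕ → Polynomial ℂ) : Prop :=
  p 0 = I.b 0 ∧ (∀ k, k ≤ I.d + 1 → (p k).natDegree ≤ I.d + 1 - k) ∧ (∀ k, I.d + 1 < k → p k = 0) ∧
  ∀ k : ℕ, ∑ m ∈ (Finset.range (I.d + 1)).filter (fun m => m ≤ k),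
      (I.b m * Polynomial.derivative (p (k - m))
        + Polynomial.C ((k : ℂ) - 2 * m) * I.a m * p (k - m)
        - Polynomial.derivative (I.b m) * p (k - m)) = 0

/-- F16d -/
def S_ODEK : Prop := ∀ I : Inf, I.Good → ∀ φ : ℕ → ℂ → ℂ, I.PhiSys φ →
  ∃ p : ℕ → Polynomial ℂ, I.PolSys p

/-- F17 from the polynomial solutions to an inverse integrating factor -/
def S_ALG1 : Prop := ∀ F : Fld, F.P.totalDegree ≤ F.d → F.Q.totalDegree ≤ F.d →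
  ∀ p : ℕ → Polynomial ℂ, F.inf.PolSys p →
  ∃ f : MvPolynomial (Fin 2) ℂ, f.totalDegree ≤ F.d + 1 ∧
    MvPolynomial.homogeneousComponent (F.d + 1) f =
      MvPolynomial.X 0 * MvPolynomial.homogeneousComponent F.d F.Q -
        MvPolynomial.X 1 * MvPolynomial.homogeneousComponent F.d F.P ∧
    F.P * MvPolynomial.pderiv 0 f + F.Q * MvPolynomial.pderiv 1 f =
      (MvPolynomial.pderiv 0 F.P + MvPolynomial.pderiv 1 F.Q) * f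

/-- F18a coprimality of the top parts -/
def S_COP : Prop := ∀ F : Fld, F.Good →
  IsRelPrime (MvPolynomial.homogeneousComponent F.d F.P)
    (MvPolynomial.homogeneousComponent F.d F.Q) ∧
  MvPolynomial.homogeneousComponent F.d F.P ≠ 0 ∧ MvPolynomial.homogeneousComponent F.d F.Q ≠ 0

/-- F18b low degree elements of the ideal `(P, Q)` -/
def S_HBAS : Prop := ∀ F : Fld, F.Good → ∀ h ∈ Ideal.span {F.P, F.Q}, h.totalDegree ≤ F.d →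
  (∃ α β : ℂ, h = MvPolynomial.C α * F.P + MvPolynomial.C β * F.Q) ∧
  (h.totalDegree < F.d → h = 0)

/-- F18c the ideal `(P, Q)` is radical: polynomials vanishing at the zeros belong to it -/
def S_RADI : Prop := ∀ F : Fld, F.Good → ∀ h : MvPolynomial (Fin 2) ℂ,
  (∀ p : ℂ × ℂ, F.W p = 0 → MvPolynomial.eval ![p.1, p.2] h = 0) → h ∈ Ideal.span {F.P, F.Q}

/-- F18d -/
def S_ALG2 : Prop := ∀ F : Fld, F.Good → ∀ f : MvPolynomial (Fin 2) ℂ, f.totalDegree ≤ F.d + 1 →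
    MvPolynomial.homogeneousComponent (F.d + 1) f =
      MvPolynomial.X 0 * MvPolynomial.homogeneousComponent F.d F.Q -
        MvPolynomial.X 1 * MvPolynomial.homogeneousComponent F.d F.P →
    F.P * MvPolynomial.pderiv 0 f + F.Q * MvPolynomial.pderiv 1 f =
      (MvPolynomial.pderiv 0 F.P + MvPolynomial.pderiv 1 F.Q) * f → False

/-- F19 two non-commuting loops, one of them contracting -/
def S_NC : Prop := ∀ F : Fld, F.Good → ∃ (s₀ : ℂ) (n m : ℕ) (c g : ℂ → ℂ),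
  F.inf.Hol n s₀ s₀ c ∧ F.inf.Hol m s₀ s₀ g ∧ ‖deriv c 0‖ < 1 ∧
    ¬ (∀ᶠ z in 𝓝 (0 : ℂ), g (c z) = c (g z))

/-! ### F20-F22 : the tree -/

/-- F20 words in two contractions with the same multiplier -/
def S_DIST : Prop := ∀ (G : Bool → ℂ → ℂ) (ρ : ℂ), (∀ i, AnalyticAt ℂ (G i) 0) →
  (∀ i, G i 0 = 0) → (∀ i, deriv (G i) 0 = ρ) → ρ ≠ 0 → ‖ρ‖ ≤ 1 / 100 →
  ¬ (∀ᶠ z in 𝓝 (0 : ℂ), G true z = G false z) →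
  ∃ δ > 0, ∀ z : ℂ, 0 < ‖z‖ → ‖z‖ < δ →
    (∀ w : List Bool, wordMap G w z ≠ 0 ∧ ‖wordMap G w z‖ ≤ (1 / 2) ^ w.length * ‖z‖) ∧
    (∀ w w' : List Bool, w.length = w'.length → w ≠ w' → wordMap G w z ≠ wordMap G w' z)

/-- F21 from the non-commuting loops to two loops with the same number of steps and the same
small multiplier -/
def S_TWO : Prop := ∀ F : Fld, F.Good → ∃ (s₀ : ℂ) (n : ℕ) (G : Bool → ℂ → ℂ) (ρ : ℂ),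
  (∀ i, F.inf.Hol n s₀ s₀ (G i)) ∧ (∀ i, deriv (G i) 0 = ρ) ∧ ‖ρ‖ ≤ 1 / 100 ∧ ρ ≠ 0 ∧
    ¬ (∀ᶠ z in 𝓝 (0 : ℂ), G true z = G false z)

/-- F22 the tree -/
def S_TREE : Prop := ∀ F : Fld, F.Good → ∃ s₀ ∈ F.inf.Om, ∃ ε > 0, ∀ p : ℂ × ℂ, F.W p ≠ 0 →
  ∀ T : TS {q : ℂ × ℂ // F.Lf p q}, F.IsLeafTS p T →
  ∀ z : ℂ, 0 < ‖z‖ → ‖z‖ < ε → F.Lf p (aff s₀ z) → Nonempty T.Tree

/-! ### F23-F28 : leaves which do not accumulate -/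

/-- the leaf of `p` stays away from the compact subsets of `Om` near infinity -/
def Fld.Away (F : Fld) (p : ℂ × ℂ) : Prop := ∀ K : Set ℂ, IsCompact K → K ⊆ F.inf.Om →
  ∃ δ > 0, ∀ s ∈ K, ∀ z : ℂ, 0 < ‖z‖ → ‖z‖ < δ → ¬ F.Lf p (aff s z)

/-- F23 -/
def S_LIFT : Prop := ∀ F : Fld, F.Good → ∀ s₀ ∈ F.inf.Om, ∀ ε > 0, ∀ p : ℂ × ℂ, F.W p ≠ 0 →
  (∀ z : ℂ, 0 < ‖z‖ → ‖z‖ < ε → ¬ F.Lf p (aff s₀ z)) → F.Away p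

/-- F24 the direction `s = ∞` -/
def S_LIFTINF : Prop := ∀ F : Fld, F.Good → ∀ p : ℂ × ℂ, F.W p ≠ 0 → F.Away p →
  ∃ r > 0, ∀ v w : ℂ, ‖v‖ < r → 0 < ‖w‖ → ‖w‖ < r → ¬ F.Lf p (v / w, 1 / w)

/-- F25 the saddle argument at a root -/
def S_SAD : Prop := ∀ F : Fld, F.Good → ∀ p : ℂ × ℂ, F.W p ≠ 0 → F.Away p →
  ∀ s₁ : ℂ, (F.inf.b 0).eval s₁ = 0 → ∃ r > 0, ∃ C : ℝ,
    (∀ s z : ℂ, ‖s - s₁‖ < r → 0 < ‖z‖ → ‖z‖ < r → F.Lf p (aff s z) → ‖s - s₁‖ ≤ C * ‖z‖) ∧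
    (∀ s s' z : ℂ, ‖s - s₁‖ < r → ‖s' - s₁‖ < r → 0 < ‖z‖ → ‖z‖ < r → F.Lf p (aff s z) →
      F.Lf p (aff s' z) → s = s')

/-- F26 the leaf near a root is in the graph of a holomorphic function -/
def S_SEP : Prop := ∀ F : Fld, F.Good → ∀ p : ℂ × ℂ, F.W p ≠ 0 →
  ∀ s₁ : ℂ, (F.inf.b 0).eval s₁ = 0 → ∀ r > 0, ∀ C : ℝ,
    (∀ s z : ℂ, ‖s - s₁‖ < r → 0 < ‖z‖ → ‖z‖ < r → F.Lf p (aff s z) → ‖s - s₁‖ ≤ C * ‖z‖) →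
    (∀ s s' z : ℂ, ‖s - s₁‖ < r → ‖s' - s₁‖ < r → 0 < ‖z‖ → ‖z‖ < r → F.Lf p (aff s z) →
      F.Lf p (aff s' z) → s = s') →
    ∃ δ > 0, ∃ σ : ℂ → ℂ, AnalyticAt ℂ σ 0 ∧
      ∀ s z : ℂ, ‖s - s₁‖ < δ → 0 < ‖z‖ → ‖z‖ < δ → F.Lf p (aff s z) → s = σ z

/-- F27 a polynomial with cancelled principal parts -/
def S_POL : Prop := ∀ (n : ℕ) (σ : Fin n → ℂ → ℂ), (∀ j, AnalyticAt ℂ (σ j) 0) →
  ∃ R : MvPolynomial (Fin 2) ℂ, R ≠ 0 ∧ MvPolynomial.constantCoeff R = 0 ∧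
    ∃ δ > 0, ∃ K : ℝ, ∀ j, ∀ z : ℂ, 0 < ‖z‖ → ‖z‖ < δ →
      ‖MvPolynomial.eval ![1 / z, σ j z / z] R‖ ≤ K

/-- F28 -/
def S_ESC : Prop := ∀ F : Fld, F.Good → ∀ s₀ ∈ F.inf.Om, ∀ ε > 0, ∀ p : ℂ × ℂ, F.W p ≠ 0 →
  (∀ z : ℂ, 0 < ‖z‖ → ‖z‖ < ε → ¬ F.Lf p (aff s₀ z)) →
  ∃ R : MvPolynomial (Fin 2) ℂ, R ≠ 0 ∧ MvPolynomial.constantCoeff R = 0 ∧
    ∃ K : ℝ, ∀ q : ℂ × ℂ, F.Lf p q → ‖MvPolynomial.eval ![q.1, q.2] R‖ ≤ K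

/-! ### F29-F34 : conclusion -/

/-- the conclusion for one affine leaf -/
def Fld.LeafGood (F : Fld) (p : ℂ × ℂ) : Prop :=
  ∃ u : ℂ × ℂ → ℝ, (∃ K : ℝ, ∀ q, F.Lf p q → |u q| ≤ K) ∧
    (∃ q₁ q₂, F.Lf p q₁ ∧ F.Lf p q₂ ∧ u q₁ ≠ u q₂) ∧
    ∀ c : ℂ → ℂ × ℂ, F.TanD c → (∀ t ∈ ball (0 : ℂ) 1, F.Lf p (c t)) →
      UpperSemicontinuousOn (fun t => u (c t)) (ball (0 : ℂ) 1) ∧
      ∀ z : ℂ, ∀ r : ℝ, 0 < r → closedBall z r ⊆ ball (0 : ℂ) 1 →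
        2 * Real.pi * u (c z) ≤
          intervalIntegral (fun θ => u (c (circleMap z r θ))) 0 (2 * Real.pi)
            MeasureTheory.volume

/-- F29 bounded polynomial on the leaf -/
def S_HARM : Prop := ∀ (F : Fld) (p : ℂ × ℂ) (R : MvPolynomial (Fin 2) ℂ) (K : ℝ),
  (∀ q : ℂ × ℂ, F.Lf p q → ‖MvPolynomial.eval ![q.1, q.2] R‖ ≤ K) →
  (∀ c : ℂ, ∃ q, F.Lf p q ∧ MvPolynomial.eval ![q.1, q.2] R ≠ c) → F.LeafGood p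

/-- F30 affine theorem -/
def S_AFF : Prop := ∀ F : Fld, F.Good → ∀ p : ℂ × ℂ, F.W p ≠ 0 →
  (∀ R : MvPolynomial (Fin 2) ℂ, R ≠ 0 → ∃ q, F.Lf p q ∧ MvPolynomial.eval ![q.1, q.2] R ≠ 0) →
  F.LeafGood p

/-- the affine field of a homogeneous field on `ℂ³` -/
noncomputable def affFld (d : ℕ) (F : Fin 3 → MvPolynomial (Fin 3) ℂ) : Fld where
  d := d
  P := MvPolynomial.aeval ![(1 : MvPolynomial (Fin 2) ℂ), MvPolynomial.X 0, MvPolynomial.X 1] (F 1)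
    - MvPolynomial.X 0 *
      MvPolynomial.aeval ![(1 : MvPolynomial (Fin 2) ℂ), MvPolynomial.X 0, MvPolynomial.X 1] (F 0)
  Q := MvPolynomial.aeval ![(1 : MvPolynomial (Fin 2) ℂ), MvPolynomial.X 0, MvPolynomial.X 1] (F 2)
    - MvPolynomial.X 1 *
      MvPolynomial.aeval ![(1 : MvPolynomial (Fin 2) ℂ), MvPolynomial.X 0, MvPolynomial.X 1] (F 0)

/-- F31 algebra of the reduction -/
def S_REDA : Prop := ∀ (d : ℕ) (F : Fin 3 → MvPolynomial (Fin 3) ℂ), 2 ≤ d →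
    (∀ i, (F i).IsHomogeneous d) →
    (∀ z : Fin 3 → ℂ, z 0 = 0 → MvPolynomial.eval z (F 0) = 0) →
    (∀ (a : Fin 3 → ℂ) (c : ℂ), a ≠ 0 → (∀ i, MvPolynomial.eval a (F i) = c * a i) →
      ∃ ν₁ ν₂ : ℂ,
        (Matrix.of fun i j => MvPolynomial.eval a (MvPolynomial.pderiv j (F i))).charpoly =
          (Polynomial.X - Polynomial.C ((d : ℂ) * c)) * (Polynomial.X - Polynomial.C (ν₁ + c)) *
            (Polynomial.X - Polynomial.C (ν₂ + c)) ∧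
        (ν₁ / ν₂).im ≠ 0) →
    (¬ ∃ c : ℂ, ∀ i, MvPolynomial.eval ![0, 0, 1] (F i) = c * (![0, 0, 1] : Fin 3 → ℂ) i) →
    (affFld d F).Good

/-- the frozen statement for one field `F` of degree `d` -/
def Body (d : ℕ) (F : Fin 3 → MvPolynomial (Fin 3) ℂ) : Prop :=
    2 ≤ d →
    (∀ i, (F i).IsHomogeneous d) →
    ∀ (V : (Fin 3 → ℂ) → (Fin 3 → ℂ)), (∀ z i, V z i = MvPolynomial.eval z (F i)) →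
    ∀ (Sing : (Fin 3 → ℂ) → Prop), (∀ z, Sing z ↔ (z ≠ 0 ∧ ∃ c : ℂ, V z = c • z)) →
    (∃ S : Finset (Fin 3 → ℂ), ∀ z, Sing z → ∃ s ∈ S, ∃ t : ℂ, z = t • s) →
    (∀ z : Fin 3 → ℂ, z 0 = 0 → V z 0 = 0) →
    (∀ (a : Fin 3 → ℂ) (c : ℂ), a ≠ 0 → V a = c • a → ∃ ν₁ ν₂ : ℂ,
        (Matrix.of fun i j => MvPolynomial.eval a (MvPolynomial.pderiv j (F i))).charpoly =
          (Polynomial.X - Polynomial.C ((d : ℂ) * c)) * (Polynomial.X - Polynomial.C (ν₁ + c)) *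
            (Polynomial.X - Polynomial.C (ν₂ + c)) ∧
        (ν₁ / ν₂).im ≠ 0) →
    ∀ (Tan : (ℂ → (Fin 3 → ℂ)) → Prop), (∀ φ, Tan φ ↔
        (DifferentiableOn ℂ φ (Metric.ball (0 : ℂ) 1) ∧ ∀ t ∈ Metric.ball (0 : ℂ) 1,
          φ t ≠ 0 ∧ ¬ Sing (φ t) ∧ ∃ α β : ℂ, deriv φ t = α • φ t + β • V (φ t))) →
    ∀ (L : (Fin 3 → ℂ) → Prop) (p : Fin 3 → ℂ), p ≠ 0 → ¬ Sing p →
    (∀ q, L q ↔ Relation.ReflTransGen (fun x y => ∃ φ, Tan φ ∧ ∃ s ∈ Metric.ball (0 : ℂ) 1,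
        ∃ t ∈ Metric.ball (0 : ℂ) 1, ∃ a b : ℂ, φ s = a • x ∧ φ t = b • y) p q) →
    (¬ ∃ (k : ℕ) (P : MvPolynomial (Fin 3) ℂ), 0 < k ∧ P.IsHomogeneous k ∧ P ≠ 0 ∧
        ∀ q, L q → MvPolynomial.eval q P = 0) →
    ∃ u : (Fin 3 → ℂ) → ℝ,
      (∃ M : ℝ, ∀ q, L q → |u q| ≤ M) ∧
      (∀ q, L q → ∀ c : ℂ, c ≠ 0 → u (c • q) = u q) ∧
      (∀ φ, Tan φ → (∀ t ∈ Metric.ball (0 : ℂ) 1, L (φ t)) →
        UpperSemicontinuousOn (fun t => u (φ t)) (Metric.ball (0 : ℂ) 1) ∧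
        ∀ z : ℂ, ∀ r : ℝ, 0 < r → Metric.closedBall z r ⊆ Metric.ball (0 : ℂ) 1 →
          2 * Real.pi * u (φ z) ≤
            intervalIntegral (fun θ => u (φ (circleMap z r θ))) 0 (2 * Real.pi) MeasureTheory.volume) ∧
      ∃ q₁ q₂, L q₁ ∧ L q₂ ∧ u q₁ ≠ u q₂

/-- F32 geometry of the reduction -/
def S_REDG : Prop := S_AFF → S_REDA → ∀ (d : ℕ) (F : Fin 3 → MvPolynomial (Fin 3) ℂ),
  (¬ ∃ c : ℂ, ∀ i, MvPolynomial.eval ![0, 0, 1] (F i) = c * (![0, 0, 1] : Fin 3 → ℂ) i) → Body d F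

/-- F33 the shear making `[0:0:1]` nonsingular -/
def S_COORD : Prop := (∀ (d : ℕ) (F : Fin 3 → MvPolynomial (Fin 3) ℂ),
    (¬ ∃ c : ℂ, ∀ i, MvPolynomial.eval ![0, 0, 1] (F i) = c * (![0, 0, 1] : Fin 3 → ℂ) i) →
    Body d F) →
  ∀ (d : ℕ) (F : Fin 3 → MvPolynomial (Fin 3) ℂ), Body d F

end Pool.GL
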