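import Pool.Agent.Helper99.GL.F22
import Pool.Agent.Helper99.GL.F30

set_option autoImplicit false

namespace Pool.GL.Helper99

/-- pure logic: all parts imply the frozen statement -/
theorem assemble
    (hode : S_HODE) (uniq : S_UNIQ) (uniqc : S_UNIQC) (soluni : S_SOLUNI)
    (curve : S_HODE → S_UNIQ → S_CURVE) (lfsym : S_CURVE → S_LFSYM)
    (leafts : S_HODE → S_UNIQC → S_LFSYM → S_LEAFTS) (leafhol : S_LEAFHOL)
    (chart : S_CHART) (ginf : S_GINF) (loc : S_LOC) (lk : S_CURVE → S_CHART → S_LK)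
    (geo : S_CHART → S_GEO) (tr1 : S_TR1) (tr2 : S_SOLUNI → S_TR2) (tr3 : S_LOC → S_TR3)
    (hol1 : S_TR1 → S_TR2 → S_HOL1) (hol2 : S_HOL2) (hol3 : S_TR2 → S_TR3 → S_HOL3)
    (contr : S_LOC → S_TR1 → S_CONTR) (koe : S_KOE)
    (yfam : S_TR1 → S_TR2 → S_HOL1 → S_HOL2 → S_HOL3 → S_YFAM)
    (coef : S_COEF) (odec : S_ODEC) (odek : S_ODEC → S_ODEK) (alg1 : S_ALG1) (alg2 : S_ALG2)
    (nc : S_GINF → S_CONTR → S_KOE → S_YFAM → S_COEF → S_ODEK → S_ALG1 → S_ALG2 → S_TR2 →
      S_HOL1 → S_NC)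
    (dist : S_DIST) (two : S_NC → S_HOL1 → S_HOL2 → S_TWO)
    (lift : S_LOC → S_LK → S_LIFT) (liftinf : S_LIFTINF) (sad : S_SAD)
    (sep : S_HODE → S_CURVE → S_CHART → S_SEP) (pol : S_POL)
    (esc : S_LIFT → S_LIFTINF → S_SAD → S_SEP → S_POL → S_ESC)
    (harm : S_HARM) (tg : S_TREE_GOOD) (reda : S_REDA) (redg : S_REDG) (coord : S_COORD) :
    ∀ (d : ℕ) (F : Fin 3 → MvPolynomial (Fin 3) ℂ), Body d F := by
  have hcurve := curve hode uniq
  have hlfsym := lfsym hcurve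
  have hleafts := leafts hode uniqc hlfsym
  have hlk := lk hcurve chart
  have hgeo := geo chart
  have htr2 := tr2 soluni
  have htr3 := tr3 loc
  have hhol1 := hol1 tr1 htr2
  have hhol3 := hol3 htr2 htr3
  have hcontr := contr loc tr1
  have hyfam := yfam tr1 htr2 hhol1 hol2 hhol3
  have hodek := odek odec
  have hnc := nc ginf hcontr koe hyfam coef hodek alg1 alg2 htr2 hhol1
  have htwo := two hnc hhol1 hol2
  have htree := TREE htwo dist hgeo soluni
  have hlift := lift loc hlk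
  have hsep := sep hode hcurve chart
  have hesc := esc hlift liftinf sad hsep pol
  have haff := AFF hleafts leafhol htree hesc harm tg
  exact coord (redg haff reda)

end Pool.GL.Helper99
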