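import Pool.Agent.Helper99.GL.Final
import Pool.Agent.Helper78.GL.HalfA
import Pool.Agent.Helper49.GL.F01
import Pool.Agent.Helper49.GL.F02
import Pool.Agent.Helper93.GL.F03
import Pool.Agent.Helper93.GL.F04
import Pool.Agent.Helper5.GL.F06
import Pool.Agent.Helper71.GL.F07
import Pool.Agent.Helper49.GL.F08
import Pool.Agent.Helper38.GL.F09
import Pool.Agent.Helper49.GL.F10
import Pool.Agent.Helper15.GL.F11
import Pool.Agent.Helper88.GL.F12
import Pool.Agent.Helper92.GL.F13
import Pool.Agent.Helper15.GL.F14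
import Pool.Agent.Helper63.GL.F16a
import Pool.Agent.Helper63.GL.F16b
import Pool.Agent.Helper63.GL.F16c
import Pool.Agent.Helper5.GL.F16d
import Pool.Agent.Helper85.GL.F18a
import Pool.Agent.Helper85.GL.F18b
import Pool.Agent.Helper85.GL.F18c
import Pool.Agent.Helper15.GL.F19
import Pool.Agent.Helper32.GL.DIST
import Pool.Agent.Helper92.GL.F21
import Pool.Agent.Helper99.GL.F23
import Pool.Agent.Helper12.GL.F24
import Pool.Agent.Helper46.GL.F26
import Pool.Agent.Helper32.GL.POL
import Pool.Agent.Helper46.GL.F28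
import Pool.Agent.Helper64.GL.F29
import Pool.Agent.Helper78.GL.REDG

set_option autoImplicit false

namespace Pool.GL.Helper99

theorem final2 (leafhol : S_LEAFHOL) (coef : S_COEF) (alg1 : S_ALG1)
    (alg2 : S_COP → S_HBAS → S_RADI → S_ALG2)
    (sad : S_SAD) (reda : S_REDA) (coord : S_COORD) :
    ∀ (d : ℕ) (F : Fin 3 → MvPolynomial (Fin 3) ℂ), Body d F :=
  assemble Helper49.hode Helper49.uniq Helper49.uniqc Helper49.soluni
    H93.CURVE H93.LFSYM H93.LEAFTS leafhol Helper5.CHART Helper5.GINF Helper71.F07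
    Helper49.lk Helper38.geo_thm Helper49.tr1 Helper49.tr2 Helper49.tr3
    H15.hol1 H15.hol2 H15.hol3 H88.CONTR Helper92.KOE H15.yfam coef
    (H63.odec_thm H63.rootb_thm H63.growb_thm) Helper5.ODEK alg1
    (alg2 H85.COP (H85.HBAS H85.COP) H85.RADI) H15.nc Helper32.dist_thm Helper92.TWO
    F23c.lift
    (Helper12.liftinf Helper71.F07
      (Helper49.lk (H93.CURVE Helper49.hode Helper49.uniq) Helper5.CHART))
    sad Helper46.SEP Helper32.pol_thm Helper46.ESC Helper64.HARM _root_.Helper78.GL.tree_good reda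
    (Pool.GL.H78.redg (H93.CURVE Helper49.hode Helper49.uniq) Helper49.uniqc) coord

end Pool.GL.Helper99
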