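import Pool.Agent.Helper99.GL.Final2
import Pool.Agent.Helper28.GL.F05
import Pool.Agent.Helper74.GL.F15
import Pool.Agent.Helper85.GL.F17
import Pool.Agent.Helper85.GL.F18d
import Pool.Agent.Helper69.GL.F25
import Pool.Agent.Helper92.GL.F31
import Pool.Agent.Helper64.GL.F33

set_option autoImplicit false

namespace Pool.GL.Helper99

theorem final : ∀ (d : ℕ) (F : Fin 3 → MvPolynomial (Fin 3) ℂ), Body d F :=
  final2 (H28.LEAFHOL Helper49.uniq) (H74.COEF (Helper49.tr3 Helper71.F07)) H85.ALG1 H85.ALG2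
    (H69.sad (H93.CURVE Helper49.hode Helper49.uniq) Helper5.CHART) Helper92.REDA Helper64.COORD

end Pool.GL.Helper99
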