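import Mathlib

/-!
Interface between the two halves of the swarm `GL` (MP_a31c1c_an, frozen S05669):
(I) abstract potential theory on a translation surface (helper78),
(II) the foliation half (helper99).
-/

set_option autoImplicit false

namespace Pool.GL

/-- An abstract translation surface: a set `M` with a local complex flow. -/
structure TS (M : Type) where
  Phi : M → ℂ → M
  rho : M → ℝ
  rho_pos : ∀ p, 0 < rho p
  rho_le : ∀ p, rho p ≤ 1
  Phi_zero : ∀ p, Phi p 0 = p
  rho_lip : ∀ p t, ‖t‖ < rho p → rho p - ‖t‖ ≤ rho (Phi p t)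
  Phi_add : ∀ p s t, ‖s‖ + ‖t‖ < rho p → Phi (Phi p s) t = Phi p (s + t)
  Phi_inj : ∀ p s t, ‖s‖ < rho p → ‖t‖ < rho p → Phi p s = Phi p t → s = t
  conn : ∀ p q, Relation.ReflTransGen (fun x y => ∃ t : ℂ, ‖t‖ < rho x ∧ y = Phi x t) p q

/-- holomorphic discs in `M` (defined on the unit disc of `ℂ`) -/
def TS.HolDisc {M : Type} (T : TS M) (c : ℂ → M) : Prop :=
  ∀ t₀ ∈ Metric.ball (0 : ℂ) 1, ∃ ε > 0, ∃ τ : ℂ → ℂ,
    DifferentiableOn ℂ τ (Metric.ball t₀ ε) ∧
    ∀ t ∈ Metric.ball t₀ ε, ‖τ t‖ < T.rho (c t₀) ∧ c t = T.Phi (c t₀) (τ t)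

/-- flow disc -/
def TS.disc {M : Type} (T : TS M) (p : M) (r : ℝ) : Set M := T.Phi p '' Metric.ball (0 : ℂ) r

/-- A binary tree of flow discs going to infinity.
`y w i j` (`j = 0..n0`) is the chain from the vertex of the word `w` to that of `i :: w`. -/
structure TS.Tree {M : Type} (T : TS M) where
  n0 : ℕ
  y : List Bool → Bool → ℕ → M
  r : List Bool → Bool → ℕ → ℝ
  /-- the chain starts at the vertex of `w` -/
  start : ∀ w, y w true 0 = y w false 0 ∧ r w true 0 = r w false 0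
  /-- the chain ends at the vertex of `i :: w` -/
  finish : ∀ w i, y w i n0 = y (i :: w) false 0 ∧ r w i n0 = r (i :: w) false 0
  r_pos : ∀ w i j, 0 < r w i j
  r_le : ∀ w i j, 2 * r w i j ≤ T.rho (y w i j)
  step : ∀ w i j, j < n0 → ∃ t : ℂ, ‖t‖ ≤ r w i j / 4 ∧ y w i (j + 1) = T.Phi (y w i j) t
  ratio : ∀ w i j, j < n0 → r w i j / 2 ≤ r w i (j + 1) ∧ r w i (j + 1) ≤ 2 * r w i j
  /-- discs of the same type at the same level are disjoint -/
  disj : ∀ w w' i j, w.length = w'.length → w ≠ w' → j ≤ n0 →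
    Disjoint (T.disc (y w i j) (2 * r w i j)) (T.disc (y w' i j) (2 * r w' i j))
  /-- the tree leaves every compact flow disc -/
  escape : ∀ p, ∃ N : ℕ, ∀ w : List Bool, N ≤ w.length →
    Disjoint (T.disc (y w false 0) (r w false 0))
      (T.Phi p '' Metric.closedBall (0 : ℂ) (T.rho p / 2))

/-- conclusion wanted by the foliation half from the potential theory half -/
def TS.Good {M : Type} (T : TS M) : Prop :=
  ∃ u : M → ℝ, (∃ K : ℝ, ∀ p, |u p| ≤ K) ∧ (∃ p q, u p ≠ u q) ∧
    ∀ c : ℂ → M, T.HolDisc c →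
      UpperSemicontinuousOn (fun t => u (c t)) (Metric.ball (0 : ℂ) 1) ∧
      ∀ z : ℂ, ∀ r : ℝ, 0 < r → Metric.closedBall z r ⊆ Metric.ball (0 : ℂ) 1 →
        2 * Real.pi * u (c z) ≤
          intervalIntegral (fun θ => u (c (circleMap z r θ))) 0 (2 * Real.pi)
            MeasureTheory.volume

/-- MAIN THEOREM OF HALF (I) (statement). `M` must not be covered by one compact... it suffices
that the tree exists. -/
def S_TREE_GOOD : Prop := ∀ (M : Type) (T : TS M), T.Tree → T.Good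

end Pool.GL
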